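import Pool.Agent.MP_28f8a1_an.H42.Bd

/-! Inverse branches of iterates of a polynomial. -/

set_option autoImplicit false

namespace Pool.Agent.MP_28f8a1_an.G42

open MeasureTheory Metric Set Real Filter Topology Polynomial Pool.Agent.MP_28f8a1_an.H42
open scoped ENNReal

/-- The polynomial as a map of the plane. -/
noncomputable def fp (T : ℂ[X]) (z : ℂ) : ℂ := T.eval z

/-- The derivative. -/
noncomputable def lam (T : ℂ[X]) (z : ℂ) : ℂ := T.derivative.eval z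

/-- The derivative of the `n`-th iterate. -/
noncomputable def Pd (T : ℂ[X]) (z : ℂ) (n : ℕ) : ℂ := deriv (fp T)^[n] z

variable {T : ℂ[X]}

theorem fp_deriv (z : ℂ) : HasDerivAt (fp T) (lam T z) z := T.hasDerivAt z

theorem fp_strict (z : ℂ) : HasStrictDerivAt (fp T) (lam T z) z := T.hasStrictDerivAt z

theorem lam_deriv (z : ℂ) : HasDerivAt (lam T) (lam (derivative T) z) z :=
  T.derivative.hasDerivAt z

@[fun_prop]
theorem fp_diff : Differentiable ℂ (fp T) := fun z => (fp_deriv z).differentiableAt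

@[fun_prop]
theorem lam_diff : Differentiable ℂ (lam T) := fun z => (lam_deriv z).differentiableAt

theorem iter_diff (n : ℕ) : Differentiable ℂ (fp T)^[n] := fp_diff.iterate n

theorem iter_deriv (n : ℕ) (z : ℂ) : HasDerivAt (fp T)^[n] (Pd T z n) z :=
  (iter_diff n z).hasDerivAt

theorem Pd_zero (z : ℂ) : Pd T z 0 = 1 := by simp [Pd]

theorem Pd_add (z : ℂ) (j k : ℕ) : Pd T z (j + k) = Pd T ((fp T)^[k] z) j * Pd T z k := by
  have h := ((iter_deriv (T := T) j _).comp z (iter_deriv (T := T) k z)).deriv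
  rwa [← Function.iterate_add] at h

theorem Pd_one (z : ℂ) : Pd T z 1 = lam T z := (fp_deriv z).deriv

theorem Pd_succ (z : ℂ) (n : ℕ) : Pd T z (n + 1) = Pd T (fp T z) n * lam T z := by
  rw [Pd_add, Pd_one]
  rfl

theorem Pd_succ' (z : ℂ) (n : ℕ) : Pd T z (n + 1) = lam T ((fp T)^[n] z) * Pd T z n := by
  rw [add_comm n 1, Pd_add, Pd_one]

/-- `h` is a holomorphic branch of the inverse of the `k`-th iterate on `S`. -/
structure Br (T : ℂ[X]) (k : ℕ) (h : ℂ → ℂ) (S : Set ℂ) : Prop where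
  diff : DifferentiableOn ℂ h S
  inv : ∀ z ∈ S, (fp T)^[k] (h z) = z

theorem Br.mono {k : ℕ} {h : ℂ → ℂ} {S S' : Set ℂ} (hb : Br T k h S) (hS : S' ⊆ S) :
    Br T k h S' := ⟨hb.diff.mono hS, fun z hz => hb.inv z (hS hz)⟩

theorem Br.mul_deriv {k : ℕ} {h : ℂ → ℂ} {S : Set ℂ} (hb : Br T k h S) (hS : IsOpen S) {z : ℂ}
    (hz : z ∈ S) : Pd T (h z) k * deriv h z = 1 := by
  have h1 := (iter_deriv (T := T) k (h z)).comp z (hb.diff.hasDerivAt (hS.mem_nhds hz))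
  have h2 : id =ᶠ[𝓝 z] (fp T)^[k] ∘ h := by
    filter_upwards [hS.mem_nhds hz] with v hv using (hb.inv v hv).symm
  exact (h1.congr_of_eventuallyEq h2).unique (hasDerivAt_id z)

theorem Br.norm_deriv {k : ℕ} {h : ℂ → ℂ} {S : Set ℂ} (hb : Br T k h S) (hS : IsOpen S) {z : ℂ}
    (hz : z ∈ S) : ‖deriv h z‖ = ‖Pd T (h z) k‖⁻¹ := by
  rw [← norm_inv, eq_inv_of_mul_eq_one_right (hb.mul_deriv hS hz)]

theorem Br.univ {k : ℕ} {h : ℂ → ℂ} {S : Set ℂ} (hb : Br T k h S) (hS : IsOpen S) : Univ h S :=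
  ⟨hb.diff, fun u hu v hv h => by rw [← hb.inv u hu, h, hb.inv v hv],
    fun _ hz => right_ne_zero_of_mul_eq_one (hb.mul_deriv hS hz)⟩

theorem Br.iter {k : ℕ} {h : ℂ → ℂ} {S : Set ℂ} (hb : Br T k h S) {j : ℕ} (hj : j ≤ k) :
    Br T (k - j) (fun z => (fp T)^[j] (h z)) S :=
  ⟨(iter_diff j).comp_differentiableOn hb.diff, fun z hz => by
    rw [← Function.iterate_add_apply, Nat.sub_add_cancel hj, hb.inv z hz]⟩

theorem Br.ne_zero {k : ℕ} {h : ℂ → ℂ} {S : Set ℂ} (hb : Br T k h S) (hS : IsOpen S)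
    (hk : 0 < k) {z : ℂ} (hz : z ∈ S) : lam T (h z) ≠ 0 := by
  obtain ⟨k, rfl⟩ := Nat.exists_eq_succ_of_ne_zero hk.ne'
  intro h0
  have := hb.mul_deriv hS hz
  rw [Pd_succ, h0] at this
  simp at this

theorem Br.unique {k : ℕ} {h h' : ℂ → ℂ} {x : ℂ} {R : ℝ} (hb : Br T k h (ball x R))
    (hb' : Br T k h' (ball x R)) {z : ℂ} (hz : z ∈ ball x R) (hzz : h z = h' z) :
    EqOn h h' (ball x R) := by
  have hn := isOpen_ball.mem_nhds hz
  refine (hb.diff.analyticOnNhd isOpen_ball).eqOn_of_preconnected_of_eventuallyEq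
    (hb'.diff.analyticOnNhd isOpen_ball) (convex_ball x R).isPreconnected hz ?_
  have h1 : HasStrictDerivAt (fp T)^[k] (Pd T (h z) k) (h z) :=
    ((iter_diff k).analyticAt (h z)).hasStrictDerivAt
  have h0 := left_ne_zero_of_mul_eq_one (hb.mul_deriv isOpen_ball hz)
  obtain ⟨ι, h2⟩ : ∃ ι : ℂ → ℂ, ∀ᶠ v in 𝓝 (h z), ι ((fp T)^[k] v) = v :=
    ⟨_, (h1.hasStrictFDerivAt_equiv h0).eventually_left_inverse⟩
  have h3 := (hb.diff.continuousOn.continuousAt hn).eventually h2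
  rw [hzz] at h2
  have h4 := (hb'.diff.continuousOn.continuousAt hn).eventually h2
  filter_upwards [h3, h4, hn] with v h5 h6 hv
  rw [hb.inv v hv] at h5
  rw [hb'.inv v hv] at h6
  rw [← h5, h6]

/-- Uniform data: degree, escape radius, no inverse branch on the big disc. -/
structure Adm (d : ℕ) (Λ : ℝ) (T : ℂ[X]) : Prop where
  pos : 0 < Λ
  two : 2 ≤ d
  deg : T.natDegree = d
  esc : ∀ z : ℂ, Λ ≤ ‖z‖ → 2 * ‖z‖ ≤ ‖fp T z‖
  nobr : ∀ h : ℂ → ℂ, ¬Br T 1 h (ball 0 Λ)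

theorem Adm.dpos {d : ℕ} {Λ : ℝ} (h : Adm d Λ T) : 0 < T.natDegree := by
  have := h.two
  have := h.deg
  omega

/-- A large disc is backward invariant. -/
theorem back_ball {Λ : ℝ} (hesc : ∀ z : ℂ, Λ ≤ ‖z‖ → 2 * ‖z‖ ≤ ‖fp T z‖) {R : ℝ} (hR : Λ ≤ R)
    (k : ℕ) {z : ℂ} (hz : ‖(fp T)^[k] z‖ < R) : ‖z‖ < R := by
  induction k with
  | zero => exact hz
  | succ k ih =>
    refine ih ?_
    rw [Function.iterate_succ_apply'] at hz
    by_contra hn
    push Not at hn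
    linarith [hesc _ (hR.trans hn), norm_nonneg ((fp T)^[k] z)]

theorem esc_iter {Λ : ℝ} (hΛ : 0 < Λ) (hesc : ∀ z : ℂ, Λ ≤ ‖z‖ → 2 * ‖z‖ ≤ ‖fp T z‖) {z : ℂ}
    (hz : Λ ≤ ‖z‖) (k : ℕ) : 2 ^ k * ‖z‖ ≤ ‖(fp T)^[k] z‖ := by
  induction k with
  | zero => simp
  | succ k ih =>
    have h1 : (1 : ℝ) ≤ 2 ^ k := one_le_pow₀ one_le_two
    have := hesc ((fp T)^[k] z) (by nlinarith)
    rw [Function.iterate_succ_apply', pow_succ]
    linarith

theorem per_lt {Λ : ℝ} (hΛ : 0 < Λ) (hesc : ∀ z : ℂ, Λ ≤ ‖z‖ → 2 * ‖z‖ ≤ ‖fp T z‖) {z : ℂ}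
    {n : ℕ} (hn : 0 < n) (hz : (fp T)^[n] z = z) : ‖z‖ < Λ := by
  by_contra h
  push Not at h
  have h1 := esc_iter hΛ hesc h n
  have h2 : (2 : ℝ) ^ 1 ≤ 2 ^ n := pow_le_pow_right₀ one_le_two hn
  rw [hz] at h1
  nlinarith

/-- The preimages of a point. -/
noncomputable def pre (T : ℂ[X]) (y : ℂ) : Finset ℂ := (T - C y).roots.toFinset

theorem mem_pre (hT : 0 < T.natDegree) {w y : ℂ} : w ∈ pre T y ↔ fp T w = y := by
  have h : T - C y ≠ 0 := fun h => by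
    rw [sub_eq_zero.1 h, natDegree_C] at hT
    exact lt_irrefl _ hT
  rw [pre, Multiset.mem_toFinset, mem_roots h, IsRoot, eval_sub, eval_C, sub_eq_zero, fp]

theorem crit_finite (hT : 0 < T.natDegree) : {w | lam T w = 0}.Finite := by
  have h : derivative T ≠ 0 := fun h => by
    have := derivative_eq_zero.mp h
    omega
  exact (derivative T).roots.finite_toSet.subset fun w hw => (mem_roots h).2 hw

/-- Two lifts which agree at a regular point agree everywhere. -/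
theorem lift_unique {S : Set ℂ} (hS : IsOpen S) (hc : IsPreconnected S) {g g' : ℂ → ℂ}
    (hg : DifferentiableOn ℂ g S) (hg' : DifferentiableOn ℂ g' S)
    (h : ∀ z ∈ S, fp T (g z) = fp T (g' z)) {x : ℂ} (hx : x ∈ S) (h0 : g x = g' x)
    (hl : lam T (g x) ≠ 0) : EqOn g g' S := by
  have hn := hS.mem_nhds hx
  refine (hg.analyticOnNhd hS).eqOn_of_preconnected_of_eventuallyEq (hg'.analyticOnNhd hS) hc hx ?_
  obtain ⟨ι, h2⟩ : ∃ ι : ℂ → ℂ, ∀ᶠ v in 𝓝 (g x), ι (fp T v) = v :=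
    ⟨_, ((fp_strict _).hasStrictFDerivAt_equiv hl).eventually_left_inverse⟩
  have h3 := (hg.continuousOn.continuousAt hn).eventually h2
  rw [h0] at h2
  have h4 := (hg'.continuousOn.continuousAt hn).eventually h2
  filter_upwards [h3, h4, hn] with v h5 h6 hv
  rw [← h5, h v hv, h6]

/-- Lifting on a convex set of regular values. -/
theorem lift_convex {S : Set ℂ} (hS : IsOpen S) (hc : Convex ℝ S) {h : ℂ → ℂ}
    (hh : DifferentiableOn ℂ h S) (hr : ∀ z ∈ S, ∀ w, fp T w = h z → lam T w ≠ 0) {x p : ℂ}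
    (hx : x ∈ S) (hp : fp T p = h x) :
    ∃ g, DifferentiableOn ℂ g S ∧ (∀ z ∈ S, fp T (g z) = h z) ∧ g x = p := by
  have := hc.contractibleSpace ⟨x, hx⟩
  have := hS.locallyPathConnectedSpace
  obtain ⟨F, ⟨h1, h2⟩, -⟩ := T.isCoveringMapOn_eval.existsUnique_continuousMap_lifts
    (⟨fun z : S => h z, hh.continuousOn.domRestrict⟩ : C(S, ℂ)) (a₀ := ⟨x, hx⟩) (e₀ := p) hp
    (fun z ⟨w, h1, h2⟩ => hr z z.2 w h2 h1)
  classical
  have h3 : ∀ z (hz : z ∈ S), fp T (F ⟨z, hz⟩) = h z := fun z hz => congrFun h2 ⟨z, hz⟩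
  set g : ℂ → ℂ := fun z => if hz : z ∈ S then F ⟨z, hz⟩ else 0 with hg
  have h4 : ∀ z (hz : z ∈ S), g z = F ⟨z, hz⟩ := fun z hz => dif_pos hz
  have h5 : ContinuousOn g S := by
    rw [continuousOn_iff_continuous_domRestrict]
    exact F.continuous.congr fun z => (h4 z z.2).symm
  have h6 : ∀ z ∈ S, fp T (g z) = h z := fun z hz => by rw [h4 z hz, h3 z hz]
  refine ⟨g, fun z hz => ?_, h6, by rw [h4 x hx, h1]⟩
  have hn := hS.mem_nhds hz
  have hl := hr z hz _ (h6 z hz)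
  have h7 := (fp_strict (T := T) (g z)).to_localInverse hl
  have h8 := (h5.continuousAt hn).eventually ((fp_strict (T := T) (g z)).eventually_left_inverse hl)
  rw [h6 z hz] at h7
  refine ((h7.hasDerivAt.differentiableAt.comp z (hh.differentiableAt hn)).congr_of_eventuallyEq
    ?_).differentiableWithinAt
  filter_upwards [h8, hn] with v h9 hv
  rw [← h9, h6 v hv]
  rfl

/-- One more inverse branch. -/
theorem br_succ {k : ℕ} {h : ℂ → ℂ} {x : ℂ} {R : ℝ} (hR : 0 < R) (hb : Br T k h (ball x R))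
    (hc : ∀ z ∈ ball x R, ∀ w, fp T w = h z → lam T w ≠ 0) {p : ℂ} (hp : fp T p = h x) :
    ∃ h', Br T (k + 1) h' (ball x R) ∧ h' x = p := by
  obtain ⟨g, h1, h2, h3⟩ := lift_convex isOpen_ball (convex_ball x R) hb.diff hc
    (mem_ball_self hR) hp
  exact ⟨g, ⟨h1, fun z hz => by rw [Function.iterate_succ_apply, h2 z hz, hb.inv z hz]⟩, h3⟩

end Pool.Agent.MP_28f8a1_an.G42
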