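import Pool.Agent.MP_28f8a1_an.G42.Trans

/-! Cycles of a polynomial with their quadratic differentials. -/

set_option autoImplicit false

namespace Pool.Agent.MP_28f8a1_an.G42

open MeasureTheory Metric Set Real Filter Topology Polynomial Pool.Agent.MP_28f8a1_an.H42
open scoped ENNReal

/-- A cycle `B` of `T` with multiplier `ρ` and residues `a`. -/
structure Cyc (d : ℕ) (Λ : ℝ) where
  T : ℂ[X]
  B : Finset ℂ
  a : ℂ → ℂ
  ρ : ℂ
  adm : Adm d Λ T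
  ne : B.Nonempty
  maps : ∀ b ∈ B, fp T b ∈ B
  inj : ∀ b ∈ B, ∀ b' ∈ B, fp T b = fp T b' → b = b'
  ne0 : ∀ b ∈ B, lam T b ≠ 0
  rc : ∀ b ∈ B, a (fp T b) = a b / lam T b - lam (derivative T) b / lam T b ^ 2
  fix : ∀ b ∈ B, (fp T)^[B.card] b = b
  mult : ∀ b ∈ B, Pd T b B.card = ρ
  orb : ∀ b ∈ B, ∃ p : ℕ → ℂ, p 0 = b ∧ (∀ k, p k ∈ B) ∧ (∀ k, fp T (p (k + 1)) = p k) ∧
    ∀ i < B.card, ∀ j < B.card, p i = p j → i = j

theorem iter_poly (T : ℂ[X]) (k : ℕ) : ∃ p : ℂ[X], ∀ z, p.eval z = (fp T)^[k] z :=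
  ⟨T.comp^[k] X, fun z => by rw [iterate_comp_eval, eval_X]; rfl⟩

namespace Cyc

variable {d : ℕ} {Λ : ℝ} (Y : Cyc d Λ)

/-- The quadratic differential. -/
noncomputable def q (z : ℂ) : ℂ := ∑ b ∈ Y.B, (((z - b) ^ 2)⁻¹ + Y.a b * (z - b)⁻¹)

noncomputable def D : ℂ[X] := ∏ b ∈ Y.B, (X - C b)

noncomputable def Db (b : ℂ) : ℂ[X] := ∏ b' ∈ Y.B.erase b, (X - C b')

noncomputable def N : ℂ[X] := ∑ b ∈ Y.B, (1 + C (Y.a b) * (X - C b)) * Y.Db b ^ 2

noncomputable def M : ℂ[X] := 2 * derivative Y.D * Y.N - Y.D * derivative Y.N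

/-- `(z - b) ^ 2 * q z`, extended over `b`. -/
noncomputable def U (b z : ℂ) : ℂ := Y.N.eval z / (Y.Db b).eval z ^ 2

/-- The error density of one pull-back step. -/
noncomputable def err (y : ℂ) : ℝ := loss Y.T Y.q y + 2 * ‖Y.q y - Tr Y.T Y.q y‖

/-- The error density of the pull-back along a branch `h` of order `k`. -/
noncomputable def Err (k : ℕ) (h : ℂ → ℂ) (z : ℂ) : ℝ :=
  ∑ j ∈ Finset.range (k + 1),
    ‖deriv (fun v => (fp Y.T)^[j] (h v)) z‖ ^ 2 * Y.err ((fp Y.T)^[j] (h z))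

/-- The logarithmic derivative of the multiplier in the direction `p`. -/
noncomputable def L (p : ℂ[X]) : ℂ :=
  ∑ b ∈ Y.B, (lam p b / lam Y.T b + Y.a (fp Y.T b) * fp p b)

/-- The defect of invariance is at most `s`. -/
def Def (s : ℝ) : Prop := 0 ≤ s ∧ ∀ R, 0 ≤ R →
  LI (ball 0 R) (fun y => ‖Y.q y - Tr Y.T Y.q y‖) ≤ ENNReal.ofReal (2 * π * R * s)

theorem Db_ne {b z : ℂ} (hz : z ∈ Y.B → z = b) : (Y.Db b).eval z ≠ 0 := by
  rw [Db, eval_prod]
  refine Finset.prod_ne_zero_iff.2 fun b' hb' => ?_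
  obtain ⟨h1, h2⟩ := Finset.mem_erase.1 hb'
  simp only [eval_sub, eval_X, eval_C, sub_ne_zero]
  rintro rfl
  exact h1 (hz h2)

theorem t1048_D {b : ℂ} (hb : b ∈ Y.B) : Y.D = (X - C b) * Y.Db b :=
  (Finset.mul_prod_erase Y.B (fun b => X - C b) hb).symm

theorem t1048_q {z : ℂ} (hz : z ∉ Y.B) : Y.q z = Y.N.eval z / Y.D.eval z ^ 2 := by
  rw [q, N, eval_finsetSum, Finset.sum_div]
  refine Finset.sum_congr rfl fun b hb => ?_
  have h1 : z - b ≠ 0 := sub_ne_zero.2 fun h => hz (h ▸ hb)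
  have h2 : (Y.Db b).eval z ≠ 0 := Y.Db_ne fun h => absurd h hz
  rw [Y.t1048_D hb]
  simp only [eval_mul, eval_sub, eval_X, eval_C, eval_add, eval_one, eval_pow]
  field_simp

theorem t1048_N {b : ℂ} (hb : b ∈ Y.B) : Y.N.eval b = (Y.Db b).eval b ^ 2 := by
  rw [N, eval_finsetSum, Finset.sum_eq_single_of_mem b hb]
  · simp
  · intro b' _ hne
    have : (Y.Db b').eval b = 0 := by
      rw [Db, eval_prod]
      exact Finset.prod_eq_zero (Finset.mem_erase.2 ⟨hne.symm, hb⟩) (by simp)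
    simp [this]

theorem t1048_M {b : ℂ} (hb : b ∈ Y.B) (z : ℂ) : Y.M.eval z =
    2 * ((Y.Db b).eval z + (z - b) * (derivative (Y.Db b)).eval z) * Y.N.eval z -
      (z - b) * (Y.Db b).eval z * (derivative Y.N).eval z := by
  rw [M, Y.t1048_D hb]
  simp [derivative_mul]

theorem t1048_Mb {b : ℂ} (hb : b ∈ Y.B) : Y.M.eval b = 2 * (Y.Db b).eval b ^ 3 := by
  rw [Y.t1048_M hb, Y.t1048_N hb]
  ring

theorem q_eq {b z : ℂ} (hb : b ∈ Y.B) (hz : z ∉ Y.B) : Y.q z = Y.U b z / (z - b) ^ 2 := by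
  have h1 : z - b ≠ 0 := sub_ne_zero.2 fun h => hz (h ▸ hb)
  rw [Y.t1048_q hz, U, Y.t1048_D hb, div_div]
  simp only [eval_mul, eval_sub, eval_X, eval_C]
  congr 1
  ring

theorem U_self {b : ℂ} (hb : b ∈ Y.B) : Y.U b b = 1 := by
  rw [U, Y.t1048_N hb, div_self (pow_ne_zero 2 (Y.Db_ne fun _ => rfl))]

theorem U_diff {b z : ℂ} (hz : z ∈ Y.B → z = b) : DifferentiableAt ℂ (Y.U b) z := by
  exact (Y.N.differentiableAt).div ((Y.Db b).differentiableAt.pow 2) (pow_ne_zero 2 (Y.Db_ne hz))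

theorem q_diff {z : ℂ} (hz : z ∉ Y.B) : DifferentiableAt ℂ Y.q z := by
  refine DifferentiableAt.fun_sum fun b hb => ?_
  have h1 : z - b ≠ 0 := sub_ne_zero.2 fun h => hz (h ▸ hb)
  have h2 : DifferentiableAt ℂ (fun z : ℂ => z - b) z := differentiableAt_id.sub_const b
  exact ((h2.pow 2).inv (pow_ne_zero 2 h1)).add ((h2.inv h1).const_mul _)

theorem measurable_q : Measurable Y.q := by
  unfold q
  fun_prop

theorem t1048_E {b : ℂ} (hb : b ∈ Y.B) {t y : ℂ} (hz : b + t * y ∈ Y.B → b + t * y = b) :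
    Eu (fun v => Y.U b (b + t * v)) y =
      -Y.M.eval (b + t * y) / (Y.Db b).eval (b + t * y) ^ 3 := by
  have h0 := Y.Db_ne hz
  have h1 : HasDerivAt (fun v : ℂ => b + t * v) t y := by
    simpa using ((hasDerivAt_id y).const_mul t).const_add b
  have h2 := ((Y.N.hasDerivAt (b + t * y)).div (((Y.Db b).hasDerivAt (b + t * y)).pow 2)
    (pow_ne_zero 2 h0)).comp y h1
  have h3 : deriv (fun v => Y.U b (b + t * v)) y = _ := h2.deriv
  rw [Eu, h3, U, Y.t1048_M hb]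
  simp only [Pi.pow_apply]
  generalize (Y.Db b).eval (b + t * y) = d at h0 ⊢
  field_simp
  ring

/-- The three equations in an affine chart at a point of the cycle. -/
theorem chart {b : ℂ} (hb : b ∈ Y.B) {t y : ℂ} (hz : b + t * y ∈ Y.B → b + t * y = b) :
    (Y.U b (b + t * y) = 0 ↔ Y.N.eval (b + t * y) = 0) ∧
    (Eu (fun v => Y.U b (b + t * v)) y = 0 ↔ Y.M.eval (b + t * y) = 0) ∧
    ∀ w : ℂ, Eu (fun v => Y.U b (b + t * v)) y ^ 2 = w * Y.U b (b + t * y) ^ 3 ↔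
      (Y.M ^ 2 - C w * Y.N ^ 3).eval (b + t * y) = 0 := by
  have h0 := Y.Db_ne hz
  have hE := Y.t1048_E hb hz
  refine ⟨?_, ?_, fun w => ?_⟩
  · rw [U, div_eq_zero_iff, or_iff_left (pow_ne_zero 2 h0)]
  · rw [hE, div_eq_zero_iff, or_iff_left (pow_ne_zero 3 h0), neg_eq_zero]
  · rw [hE, U, div_pow, div_pow, ← mul_div_assoc, ← pow_mul, ← pow_mul,
      div_left_inj' (pow_ne_zero _ h0), neg_sq]
    simp only [eval_sub, eval_pow, eval_mul, eval_C, sub_eq_zero]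

theorem t1048_card {p : ℂ[X]} (hp : p ≠ 0) {T : Finset ℂ} (h : ∀ z ∈ T, p.eval z = 0) :
    T.card ≤ p.natDegree :=
  card_le_degree_of_subset_roots fun z hz => (mem_roots hp).2 (h z hz)

theorem t1048_dD : Y.D.natDegree = Y.B.card := by
  rw [D, natDegree_prod_of_monic _ _ fun b _ => monic_X_sub_C b]
  simp

theorem t1048_dN : Y.N.natDegree + 1 ≤ 2 * Y.B.card := by
  have hP := Y.ne.card_pos
  have : Y.N.natDegree ≤ 2 * Y.B.card - 1 := by
    refine natDegree_sum_le_of_forall_le _ _ fun b hb => ?_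
    have h1 : (Y.Db b).natDegree = Y.B.card - 1 := by
      rw [Db, natDegree_prod_of_monic _ _ fun b _ => monic_X_sub_C b]
      simp [Finset.card_erase_of_mem hb]
    have h2 : (1 + C (Y.a b) * (X - C b)).natDegree ≤ 1 := by compute_degree
    have h3 := natDegree_pow_le (p := Y.Db b) (n := 2)
    have h4 := natDegree_mul_le (p := 1 + C (Y.a b) * (X - C b)) (q := Y.Db b ^ 2)
    omega
  omega

theorem t1048_dM : Y.M.natDegree + 1 ≤ 3 * Y.B.card := by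
  have h1 := Y.t1048_dD
  have h2 := Y.t1048_dN
  have h3 := natDegree_derivative_le Y.D
  have h4 := natDegree_derivative_le Y.N
  have h5 := natDegree_mul_le (p := 2 * derivative Y.D) (q := Y.N)
  have h6 := natDegree_mul_le (p := 2) (q := derivative Y.D)
  have h7 := natDegree_mul_le (p := Y.D) (q := derivative Y.N)
  have h8 := natDegree_sub_le (2 * derivative Y.D * Y.N) (Y.D * derivative Y.N)
  have h9 : (2 : ℂ[X]).natDegree = 0 := natDegree_ofNat 2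
  rw [M]
  omega

theorem t1048_N0 : Y.N ≠ 0 := by
  obtain ⟨b, hb⟩ := Y.ne
  intro h
  have := Y.t1048_N hb
  rw [h, eval_zero] at this
  exact pow_ne_zero 2 (Y.Db_ne fun _ => rfl) this.symm

theorem t1048_M0 : Y.M ≠ 0 := by
  obtain ⟨b, hb⟩ := Y.ne
  intro h
  have := Y.t1048_Mb hb
  rw [h, eval_zero] at this
  exact mul_ne_zero two_ne_zero (pow_ne_zero 3 (Y.Db_ne fun _ => rfl)) this.symm

theorem t1048_W0 {w : ℂ} (hw : w ≠ 4) : Y.M ^ 2 - C w * Y.N ^ 3 ≠ 0 := by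
  obtain ⟨b, hb⟩ := Y.ne
  intro h
  have h1 := congrArg (eval b) h
  simp only [eval_sub, eval_pow, eval_mul, eval_C, eval_zero, Y.t1048_Mb hb, Y.t1048_N hb] at h1
  refine mul_ne_zero (sub_ne_zero.2 hw.symm) (pow_ne_zero 6 (Y.Db_ne (b := b) fun _ => rfl)) ?_
  linear_combination h1

theorem N_card {T : Finset ℂ} (h : ∀ z ∈ T, Y.N.eval z = 0) : T.card < 2 * Y.B.card := by
  have h1 := t1048_card Y.t1048_N0 h
  have h2 := Y.t1048_dN
  omega

theorem W_card {w : ℂ} (hw : w ≠ 4) {T : Finset ℂ}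
    (h : ∀ z ∈ T, (Y.M ^ 2 - C w * Y.N ^ 3).eval z = 0) : T.card < 6 * Y.B.card := by
  have h1 := t1048_card (Y.t1048_W0 hw) h
  have h2 := Y.t1048_dN
  have h3 := Y.t1048_dM
  have h4 := natDegree_pow_le (p := Y.M) (n := 2)
  have h5 := natDegree_pow_le (p := Y.N) (n := 3)
  have h6 := natDegree_C_mul_le w (Y.N ^ 3)
  have h7 := natDegree_sub_le (Y.M ^ 2) (C w * Y.N ^ 3)
  omega

/-- The special points. -/
theorem special : ∃ Z : Finset ℂ, Z.card ≤ 12 * Y.B.card ∧ ∀ z, z ∈ Z ↔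
    (z ∈ Y.B ∨ Y.N.eval z = 0 ∨ Y.M.eval z = 0 ∨ (Y.M ^ 2 - C 1 * Y.N ^ 3).eval z = 0) := by
  have hw : (1 : ℂ) ≠ 4 := by norm_num
  refine ⟨Y.B ∪ (Y.N.roots.toFinset ∪ (Y.M.roots.toFinset ∪
    (Y.M ^ 2 - C 1 * Y.N ^ 3).roots.toFinset)), ?_, fun z => ?_⟩
  · have h1 := Y.N_card (T := Y.N.roots.toFinset) fun z hz =>
      (mem_roots Y.t1048_N0).1 (Multiset.mem_toFinset.1 hz)
    have h2 := t1048_card Y.t1048_M0 (T := Y.M.roots.toFinset) fun z hz =>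
      (mem_roots Y.t1048_M0).1 (Multiset.mem_toFinset.1 hz)
    have h3 := Y.W_card hw (T := (Y.M ^ 2 - C 1 * Y.N ^ 3).roots.toFinset) fun z hz =>
      (mem_roots (Y.t1048_W0 hw)).1 (Multiset.mem_toFinset.1 hz)
    have h4 := Y.t1048_dM
    refine (Finset.card_union_le _ _).trans ((Nat.add_le_add_left ((Finset.card_union_le _ _).trans
      (Nat.add_le_add_left (Finset.card_union_le _ _) _)) _).trans ?_)
    omega
  · simp only [Finset.mem_union, Multiset.mem_toFinset, mem_roots Y.t1048_N0, mem_roots Y.t1048_M0,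
      mem_roots (Y.t1048_W0 hw), IsRoot.def]

theorem t1050_sum (g : ℂ → ℂ) : ∑ b ∈ Y.B, g (fp Y.T b) = ∑ b ∈ Y.B, g b := by
  refine Finset.sum_bij (fun b _ => fp Y.T b) Y.maps (fun b hb b' hb' => Y.inj b hb b' hb') ?_
    fun _ _ => rfl
  intro b hb
  obtain ⟨p, h0, h1, h2, -⟩ := Y.orb b hb
  exact ⟨p 1, h1 1, (h2 0).trans h0⟩

theorem t1050_mem {b : ℂ} (hb : b ∈ Y.B) (k : ℕ) : (fp Y.T)^[k] b ∈ Y.B := by
  induction k with
  | zero => exact hb
  | succ k ih =>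
    rw [Function.iterate_succ_apply']
    exact Y.maps _ ih

theorem iter_mem {b : ℂ} (hb : b ∈ Y.B) (k : ℕ) : (fp Y.T)^[k] b ∈ Y.B :=
  Y.t1050_mem hb k

theorem iter_inj {b b' : ℂ} (hb : b ∈ Y.B) (hb' : b' ∈ Y.B) (k : ℕ)
    (h : (fp Y.T)^[k] b = (fp Y.T)^[k] b') : b = b' := by
  induction k with
  | zero => exact h
  | succ k ih =>
    rw [Function.iterate_succ_apply', Function.iterate_succ_apply'] at h
    exact ih (Y.inj _ (Y.iter_mem hb k) _ (Y.iter_mem hb' k) h)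

theorem Pd_ne {b : ℂ} (hb : b ∈ Y.B) (k : ℕ) : Pd Y.T b k ≠ 0 := by
  induction k with
  | zero => rw [Pd_zero]; exact one_ne_zero
  | succ k ih =>
    rw [Pd_succ']
    exact mul_ne_zero (Y.ne0 _ (Y.iter_mem hb k)) ih

theorem rho_ne : Y.ρ ≠ 0 := by
  obtain ⟨b, hb⟩ := Y.ne
  exact Y.mult b hb ▸ Y.Pd_ne hb _

theorem norm_lt {b : ℂ} (hb : b ∈ Y.B) : ‖b‖ < Λ :=
  per_lt Y.adm.pos Y.adm.esc Y.ne.card_pos (Y.fix b hb)

theorem two {b : ℂ} (hb : b ∈ Y.B) (k : ℕ) :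
    ∃ d, HasDerivAt (fun z => Pd Y.T z k) d b ∧
      Y.a ((fp Y.T)^[k] b) * Pd Y.T b k ^ 2 + d = Y.a b * Pd Y.T b k := by
  induction k with
  | zero => exact ⟨0, by simpa [Pd_zero] using hasDerivAt_const b (1 : ℂ), by simp [Pd_zero]⟩
  | succ k ih =>
    obtain ⟨d, h1, h2⟩ := ih
    have h3 := ((lam_deriv (T := Y.T) _).comp b (iter_deriv (T := Y.T) k b)).fun_mul h1
    refine ⟨_, by simp only [Pd_succ']; exact h3, ?_⟩
    have hw := Y.iter_mem hb k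
    have h0 := Y.ne0 _ hw
    rw [Function.iterate_succ_apply', Y.rc _ hw, Pd_succ',
      show d = Y.a b * Pd Y.T b k - Y.a ((fp Y.T)^[k] b) * Pd Y.T b k ^ 2 by
        linear_combination h2]
    simp only [Function.comp]
    field_simp
    ring

end Cyc

theorem t1322_U {d : ℕ} {Λ : ℝ} (Y : Cyc d Λ) {b : ℂ} (hb : b ∈ Y.B) : deriv (Y.U b) b = Y.a b := by
  have h0 : (Y.Db b).eval b ≠ 0 := Y.Db_ne fun _ => rfl
  have h1 : (derivative Y.N).eval b =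
      Y.a b * (Y.Db b).eval b ^ 2 + 2 * (Y.Db b).eval b * (derivative (Y.Db b)).eval b := by
    rw [Cyc.N, derivative_sum, eval_finsetSum, Finset.sum_eq_single_of_mem b hb]
    · simp [derivative_mul, derivative_pow]
    · intro b' _ hne
      have : (Y.Db b').eval b = 0 := by
        rw [Cyc.Db, eval_prod]
        exact Finset.prod_eq_zero (Finset.mem_erase.2 ⟨hne.symm, hb⟩) (by simp)
      simp [derivative_mul, derivative_pow, this]
  have h2 := (Y.N.hasDerivAt b).fun_div (((Y.Db b).hasDerivAt b).fun_pow 2) (pow_ne_zero 2 h0)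
  refine h2.deriv.trans ?_
  rw [h1, Y.t1048_N hb]
  field_simp
  ring

theorem Cyc.psi_at {d : ℕ} {Λ : ℝ} (Y : Cyc d Λ) (hρ : Y.ρ ≠ 1) {Ψ : ℂ[X]}
    (h : ∀ z ∉ Y.B, Ψ.eval z = (((fp Y.T)^[Y.B.card] z - z) / (Y.ρ - 1)) ^ 2 * Y.q z)
    {b : ℂ} (hb : b ∈ Y.B) :
    Ψ.eval b = 1 ∧ deriv (fun z => Ψ.eval z) b = (1 - Y.ρ) * deriv (Y.U b) b := by
  have hτ : Y.ρ - 1 ≠ 0 := sub_ne_zero.2 hρ
  obtain ⟨p, hp⟩ := iter_poly Y.T Y.B.card
  obtain ⟨G, hG⟩ : X - C b ∣ p - X := dvd_iff_isRoot.2 (by simp [hp, Y.fix b hb])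
  have hP : ∀ z, Pd Y.T z Y.B.card = (derivative p).eval z := fun z => by
    rw [Pd, ← funext hp]
    exact p.deriv
  have hG1 : derivative p = 1 + (G + (X - C b) * derivative G) := by
    have := congrArg derivative hG
    simp only [derivative_sub, derivative_mul, derivative_X, derivative_C] at this
    linear_combination this
  have g0 : G.eval b = Y.ρ - 1 := by
    rw [← Y.mult b hb, hP, hG1]
    simp
  have g1 : 2 * (derivative G).eval b = Y.a b * Y.ρ - Y.a b * Y.ρ ^ 2 := by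
    obtain ⟨d, h1, h2⟩ := Y.two hb Y.B.card
    rw [Y.fix b hb, Y.mult b hb] at h2
    rw [funext hP] at h1
    have h3 := h1.unique ((derivative p).hasDerivAt b)
    rw [hG1] at h3
    simp [derivative_mul] at h3
    linear_combination h2 - h3
  have hU := Y.U_diff (b := b) (z := b) fun _ => rfl
  have hD := (((G.hasDerivAt b).div_const (Y.ρ - 1)).fun_pow 2).fun_mul hU.hasDerivAt
  have e1 : (fun z => Ψ.eval z) =ᶠ[𝓝[≠] b] fun z => (G.eval z / (Y.ρ - 1)) ^ 2 * Y.U b z := by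
    have h1 : ∀ᶠ z in 𝓝 b, z ∉ Y.B.erase b :=
      (Y.B.erase b).finite_toSet.isClosed.isOpen_compl.mem_nhds (by simp)
    filter_upwards [nhdsWithin_le_nhds h1, self_mem_nhdsWithin] with z h2 h3
    have h4 : z ∉ Y.B := fun h5 => h2 (Finset.mem_erase.2 ⟨h3, h5⟩)
    have h5 := congrArg (eval z) hG
    have h6 : z - b ≠ 0 := sub_ne_zero.2 h3
    simp only [eval_sub, eval_mul, eval_X, eval_C, hp] at h5
    rw [h z h4, Y.q_eq hb h4, h5]
    field_simp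
  have e2 : (fun z => Ψ.eval z) =ᶠ[𝓝 b] fun z => (G.eval z / (Y.ρ - 1)) ^ 2 * Y.U b z :=
    (Ψ.continuous.continuousAt.eventuallyEq_nhds_iff_eventuallyEq_nhdsNE hD.continuousAt).1 e1
  refine ⟨?_, ?_⟩
  · rw [e2.eq_of_nhds, g0, div_self hτ, Y.U_self hb]
    simp
  · rw [e2.deriv_eq, hD.deriv, g0, div_self hτ, Y.U_self hb, t1322_U Y hb]
    field_simp
    linear_combination g1

theorem Cyc.q_cnt {d : ℕ} {Λ : ℝ} (Y : Cyc d Λ) :
    (∀ T : Finset ℂ, (∀ z ∈ T, z ∉ Y.B ∧ Y.q z = 0) → T.card < 2 * Y.B.card) ∧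
      ∀ w : ℂ, w ≠ 4 → ∀ T : Finset ℂ,
        (∀ z ∈ T, z ∉ Y.B ∧ deriv Y.q z ^ 2 = w * Y.q z ^ 3) → T.card < 6 * Y.B.card := by
  have hD : ∀ z ∉ Y.B, Y.D.eval z ≠ 0 := fun z hz => by
    obtain ⟨b, hb⟩ := Y.ne
    rw [Y.t1048_D hb, eval_mul]
    exact mul_ne_zero (by simpa [sub_eq_zero] using fun h : z = b => hz (h ▸ hb))
      (Y.Db_ne fun h => absurd h hz)
  refine ⟨fun T hT => Y.N_card fun z hz => ?_, fun w hw T hT => Y.W_card hw fun z hz => ?_⟩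
  · obtain ⟨h1, h2⟩ := hT z hz
    rwa [Y.t1048_q h1, div_eq_zero_iff, or_iff_left (pow_ne_zero 2 (hD z h1))] at h2
  · obtain ⟨h1, h2⟩ := hT z hz
    have h0 := hD z h1
    have e1 : Y.q =ᶠ[𝓝 z] fun v => Y.N.eval v / Y.D.eval v ^ 2 := by
      filter_upwards [Y.B.finite_toSet.isClosed.isOpen_compl.mem_nhds h1] with v hv
      exact Y.t1048_q hv
    have h3 := (Y.N.hasDerivAt z).fun_div ((Y.D.hasDerivAt z).fun_pow 2) (pow_ne_zero 2 h0)
    have h4 : deriv Y.q z = -Y.M.eval z / Y.D.eval z ^ 3 := by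
      rw [e1.deriv_eq, h3.deriv, Cyc.M]
      simp only [eval_sub, eval_mul, eval_ofNat]
      field_simp
      ring
    rw [h4, Y.t1048_q h1, div_pow, div_pow, ← mul_div_assoc, ← pow_mul, ← pow_mul,
      div_left_inj' (pow_ne_zero _ h0), neg_sq] at h2
    simp only [eval_sub, eval_pow, eval_mul, eval_C, sub_eq_zero, h2]

theorem Cyc.poly {d : ℕ} {Λ : ℝ} (Y : Cyc d Λ) (hρ : Y.ρ ≠ 1) : ∃ Φ Ψ : ℂ[X],
    (∀ z, Φ.eval z = (fp Y.T)^[Y.B.card] z - z) ∧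
    (∀ z ∉ Y.B, Ψ.eval z = (Φ.eval z / (Y.ρ - 1)) ^ 2 * Y.q z) ∧
    ∀ z, Ψ.eval z ≠ 0 → Y.N.eval z ≠ 0 ∧ (Φ.eval z = 0 → z ∈ Y.B) := by
  have h1 : ∀ z, (Y.T.comp^[Y.B.card] X - X).eval z =
      (fp Y.T)^[Y.B.card] z - z := fun z => by
    rw [eval_sub, iterate_comp_eval, eval_X]
    rfl
  obtain ⟨H, hH⟩ : Y.D ∣ Y.T.comp^[Y.B.card] X - X := by
    refine Finset.prod_dvd_of_coprime (fun a _ b _ hab => ?_) fun b hb => ?_
    · exact isCoprime_X_sub_C_of_isUnit_sub (sub_ne_zero.mpr hab).isUnit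
    · rw [dvd_iff_isRoot, IsRoot, h1, Y.fix b hb, sub_self]
  have hD : ∀ z ∉ Y.B, Y.D.eval z ≠ 0 := fun z hz => by
    rw [Cyc.D, eval_prod]
    refine Finset.prod_ne_zero_iff.2 fun b hb => ?_
    simp only [eval_sub, eval_X, eval_C, sub_ne_zero]
    rintro rfl
    exact hz hb
  have hτ := sub_ne_zero.mpr hρ
  refine ⟨_, C ((Y.ρ - 1)⁻¹ ^ 2) * H ^ 2 * Y.N, h1, fun z hz => ?_, fun z hz => ?_⟩
  · have := hD z hz
    rw [hH, Y.t1048_q hz]
    simp only [eval_mul, eval_C, eval_pow]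
    field_simp
  · simp only [eval_mul, eval_C, eval_pow] at hz
    refine ⟨right_ne_zero_of_mul hz, fun h => ?_⟩
    by_contra hB
    rw [hH, eval_mul, mul_eq_zero] at h
    rcases h with h | h
    · exact hD z hB h
    · simp [h] at hz

end Pool.Agent.MP_28f8a1_an.G42
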