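import Pool.Agent.MP_28f8a1_an.G42.Cyc

/-! The total loss is small; telescoping along a branch; the ratio of a pulled-back term and the
differential. -/

set_option autoImplicit false

namespace Pool.Agent.MP_28f8a1_an.G42

open MeasureTheory Metric Set Real Filter Topology Polynomial Pool.Agent.MP_28f8a1_an.H42
open scoped ENNReal

namespace Cyc

variable {d : ℕ} {Λ : ℝ} (Y : Cyc d Λ)

theorem t52_rad : ∃ r m : ℂ → ℝ, (∀ b ∈ Y.B, 0 < r b) ∧ (∀ b, 1 ≤ m b) ∧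
    (∀ b ∈ Y.B, r b * ‖lam Y.T b‖ ≤ m b * r (fp Y.T b)) ∧
    ∑ b ∈ Y.B, (m b ^ 2 - 1) = max 1 ‖Y.ρ‖ ^ 2 - 1 := by
  classical
  obtain ⟨b₀, hb₀⟩ := Y.ne
  obtain ⟨p, hp0, hpB, hpf, hpi⟩ := Y.orb b₀ hb₀
  have hsur : ∀ b ∈ Y.B, ∃ i, i < Y.B.card ∧ p i = b := by
    have h1 : (Finset.range Y.B.card).image p = Y.B := by
      refine Finset.eq_of_subset_of_card_le (fun x hx => ?_) ?_
      · obtain ⟨i, -, rfl⟩ := Finset.mem_image.mp hx
        exact hpB i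
      · rw [Finset.card_image_of_injOn fun i hi j hj h =>
          hpi i (Finset.mem_range.mp hi) j (Finset.mem_range.mp hj) h, Finset.card_range]
    intro b hb
    rw [← h1] at hb
    obtain ⟨i, hi, rfl⟩ := Finset.mem_image.mp hb
    exact ⟨i, Finset.mem_range.mp hi, rfl⟩
  choose! idx hi1 hi2 using hsur
  have hidx : ∀ j < Y.B.card, idx (p j) = j := fun j hj =>
    hpi _ (hi1 _ (hpB j)) _ hj (hi2 _ (hpB j))
  have hit : ∀ k, (fp Y.T)^[k] (p k) = b₀ := fun k => by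
    induction k with
    | zero => exact hp0
    | succ k ih => rw [Function.iterate_succ_apply, hpf, ih]
  have hP : p Y.B.card = b₀ := (Y.fix _ (hpB _)).symm.trans (hit _)
  refine ⟨fun b => ‖Pd Y.T b (idx b)‖⁻¹, fun b => if b = b₀ then max 1 ‖Y.ρ‖ else 1,
    fun b hb => inv_pos.mpr (norm_pos_iff.mpr (Y.Pd_ne hb _)), fun b => ?_, fun b hb => ?_, ?_⟩
  · dsimp only
    split_ifs
    exacts [le_max_left _ _, le_rfl]
  · dsimp only
    have hl' : 0 < ‖lam Y.T b‖ := norm_pos_iff.mpr (Y.ne0 b hb)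
    split_ifs with h
    · obtain ⟨j, hj⟩ : ∃ j, Y.B.card = j + 1 :=
        ⟨Y.B.card - 1, by have := Finset.card_pos.mpr Y.ne; omega⟩
      have h1 : fp Y.T b = p j := by rw [h, ← hP, hj, hpf]
      have h2 : idx b = 0 := by rw [h, ← hp0]; exact hidx 0 (by omega)
      have h3 := Y.mult b hb
      rw [hj, Pd_succ, h1] at h3
      have h4 : 0 < ‖Pd Y.T (p j) j‖ := norm_pos_iff.mpr (Y.Pd_ne (hpB j) j)
      rw [h1, h2, hidx j (by omega), Pd_zero, norm_one, inv_one, one_mul, ← div_eq_mul_inv,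
        le_div_iff₀ h4, mul_comm, ← norm_mul]
      exact le_trans (le_of_eq (congrArg norm h3)) (le_max_right _ _)
    · obtain ⟨j, hj⟩ : ∃ j, idx b = j + 1 := by
        refine ⟨idx b - 1, ?_⟩
        have : idx b ≠ 0 := fun h0 => h (by rw [← hi2 b hb, h0, hp0])
        omega
      have h1 : fp Y.T b = p j := by rw [← hi2 b hb, hj, hpf]
      have h2 := hi1 b hb
      rw [hj, Pd_succ, h1, hidx j (by omega), one_mul, norm_mul, mul_inv, mul_assoc]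
      exact le_of_eq (mul_right_eq_self₀.mpr (Or.inl (inv_mul_cancel₀ hl'.ne')))
  · rw [Finset.sum_eq_single_of_mem b₀ hb₀ fun b _ h => by simp [h]]
    simp

theorem t52_loc {η : ℝ} (hη : 0 < η) : ∃ δ > 0, ∀ b ∈ Y.B, ∀ z ∈ ball b δ,
    (z ∈ Y.B → z = b) ∧ ‖Y.U b z‖ ≤ 1 + η ∧
      ‖fp Y.T z - fp Y.T b‖ ≤ (1 + η) * ‖lam Y.T b‖ * ‖z - b‖ := by
  have h1 : ∀ b ∈ Y.B, ∀ᶠ δ in 𝓝[>] (0 : ℝ), ∀ z ∈ ball b δ,
      (z ∈ Y.B → z = b) ∧ ‖Y.U b z‖ ≤ 1 + η ∧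
        ‖fp Y.T z - fp Y.T b‖ ≤ (1 + η) * ‖lam Y.T b‖ * ‖z - b‖ := by
    intro b hb
    have hl : 0 < ‖lam Y.T b‖ := norm_pos_iff.mpr (Y.ne0 b hb)
    have a1 : ∀ᶠ z in 𝓝 b, z ∈ Y.B → z = b := by
      have : ((Y.B : Set ℂ) \ {b})ᶜ ∈ 𝓝 b :=
        (Y.B.finite_toSet.subset sdiff_subset).isClosed.isOpen_compl.mem_nhds (by simp)
      filter_upwards [this] with z hz hzB
      by_contra h
      exact hz ⟨hzB, h⟩
    have a2 : ∀ᶠ z in 𝓝 b, ‖Y.U b z‖ ≤ 1 + η := by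
      have h2 := (Y.U_diff (b := b) (z := b) fun _ => rfl).continuousAt.norm
      refine (h2.eventually (ge_mem_nhds ?_))
      show ‖Y.U b b‖ < 1 + η
      rw [Y.U_self hb, norm_one]
      linarith
    have a3 : ∀ᶠ z in 𝓝 b, ‖fp Y.T z - fp Y.T b‖ ≤ (1 + η) * ‖lam Y.T b‖ * ‖z - b‖ := by
      have h2 := (hasDerivAt_iff_isLittleO.mp (fp_deriv (T := Y.T) b)).bound
        (mul_pos hη hl)
      filter_upwards [h2] with z hz
      have h3 := norm_add_le (fp Y.T z - fp Y.T b - (z - b) • lam Y.T b)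
        ((z - b) • lam Y.T b)
      have h4 : ‖(z - b) • lam Y.T b‖ = ‖z - b‖ * ‖lam Y.T b‖ := norm_smul _ _
      rw [sub_add_cancel, h4] at h3
      linarith
    obtain ⟨δ, hδ, h⟩ := Metric.eventually_nhds_iff_ball.mp (a1.and (a2.and a3))
    filter_upwards [Ioo_mem_nhdsGT hδ] with d hd z hz using h z (ball_subset_ball hd.2.le hz)
  obtain ⟨δ, h2, h3⟩ :=
    (((Finset.eventually_all Y.B).mpr h1).and self_mem_nhdsWithin).exists
  exact ⟨δ, h3, h2⟩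

theorem t52_step {s : ℝ} (hd : Y.Def s) {R : ℝ} (hR : Λ ≤ R) {r m : ℂ → ℝ}
    (hr : ∀ b ∈ Y.B, 0 < r b) (hm : ∀ b, 1 ≤ m b)
    (hrm : ∀ b ∈ Y.B, r b * ‖lam Y.T b‖ ≤ m b * r (fp Y.T b)) {η δ ε : ℝ} (hη : 0 < η)
    (hη1 : η < 1) (hε : 0 < ε) (hεδ : ∀ b ∈ Y.B, ε * r b ≤ δ)
    (hδ : ∀ b ∈ Y.B, ∀ z ∈ ball b δ, (z ∈ Y.B → z = b) ∧ ‖Y.U b z‖ ≤ 1 + η ∧
      ‖fp Y.T z - fp Y.T b‖ ≤ (1 + η) * ‖lam Y.T b‖ * ‖z - b‖) :
    LI (ball 0 R \ ⋃ b ∈ Y.B, ball b (ε * r b)) (loss Y.T Y.q) ≤ ENNReal.ofReal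
      (∑ b ∈ Y.B, (1 + η) * π * ((m b / (1 - η)) ^ 2 - 1) + 2 * π * R * s) := by
  obtain ⟨X, hX⟩ : ∃ X : Set ℂ, X = ball 0 R \ ⋃ b ∈ Y.B, ball b (ε * r b) := ⟨_, rfl⟩
  have hXm : MeasurableSet X := hX ▸ measurableSet_ball.diff
    (Finset.measurableSet_biUnion _ fun _ _ => measurableSet_ball)
  have hXs : X ⊆ ball 0 R := hX ▸ sdiff_subset
  have hm0 : ∀ b, 0 < m b := fun b => one_pos.trans_le (hm b)
  have h1η : 0 < 1 - η := by linarith
  have hle : ∀ b ∈ Y.B, ε * r b * ((1 - η) / m b) ≤ ε * r b := fun b hb =>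
    mul_le_of_le_one_right (mul_pos hε (hr b hb)).le
      ((div_le_one (hm0 b)).mpr (by linarith [hm b]))
  have hR0 : 0 ≤ R := Y.adm.pos.le.trans hR
  have hs0 := hd.1
  have h1 := transfer Y.adm.dpos Y.measurable_q hXm
  have h2 : fp Y.T ⁻¹' X ⊆
      X ∪ ⋃ b ∈ Y.B, (ball b (ε * r b) \ ball b (ε * r b * ((1 - η) / m b))) := by
    intro z hz
    rw [mem_preimage, hX] at hz
    by_cases h : z ∈ ⋃ b ∈ Y.B, ball b (ε * r b)
    · obtain ⟨b, hb, hzb⟩ := mem_iUnion₂.mp h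
      refine Or.inr (mem_iUnion₂.mpr ⟨b, hb, hzb, fun h' => hz.2 ?_⟩)
      refine mem_iUnion₂.mpr ⟨fp Y.T b, Y.maps b hb, ?_⟩
      rw [mem_ball, dist_eq_norm] at h' ⊢
      have a1 := (hδ b hb z (ball_subset_ball (hεδ b hb) hzb)).2.2
      have hl : 0 < ‖lam Y.T b‖ := norm_pos_iff.mpr (Y.ne0 b hb)
      have a2 : (1 + η) * ‖lam Y.T b‖ * ‖z - b‖ <
          (1 + η) * ‖lam Y.T b‖ * (ε * r b * ((1 - η) / m b)) :=
        mul_lt_mul_of_pos_left h' (by positivity)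
      have a3 : r b * ‖lam Y.T b‖ / m b ≤ r (fp Y.T b) := by
        rw [div_le_iff₀ (hm0 b), mul_comm (r (fp Y.T b))]
        exact hrm b hb
      have a4 : (1 + η) * ‖lam Y.T b‖ * (ε * r b * ((1 - η) / m b)) =
          (1 - η ^ 2) * (ε * (r b * ‖lam Y.T b‖ / m b)) := by ring
      have a5 : 0 ≤ ε * (r b * ‖lam Y.T b‖ / m b) := by
        have := hr b hb
        have := hm0 b
        positivity
      have a6 := mul_le_mul_of_nonneg_left a3 hε.le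
      nlinarith [mul_nonneg (sq_nonneg η) a5]
    · refine Or.inl (hX ▸ ⟨?_, h⟩)
      exact mem_ball_zero_iff.mpr (back_ball Y.adm.esc hR 1 (mem_ball_zero_iff.mp hz.1))
  have h3 : ∀ b ∈ Y.B, LI (ball b (ε * r b) \ ball b (ε * r b * ((1 - η) / m b)))
      (fun y => ‖Y.q y‖) ≤ ENNReal.ofReal ((1 + η) * π * ((m b / (1 - η)) ^ 2 - 1)) := by
    intro b hb
    have a0 := hr b hb
    have a0' := hm0 b
    have a1 : 0 < ε * r b * ((1 - η) / m b) := by positivity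
    refine (t52_ann b a1 (hle b hb) (C := 1 + η) (by linarith) fun z hz hz' => ?_).trans
      (le_of_eq ?_)
    · obtain ⟨a2, a3, -⟩ := hδ b hb z (ball_subset_ball (hεδ b hb) hz)
      have a4 : z ∉ Y.B := fun h => by
        rw [a2 h, sub_self, norm_zero] at hz'
        linarith
      rw [Y.q_eq hb a4, norm_div, norm_pow]
      exact div_le_div₀ (by linarith) a3 (by positivity) (pow_le_pow_left₀ a1.le hz' 2)
    · congr 4
      field_simp
  have h4 : LI X (fun y => ‖Y.q y‖) ≠ ⊤ := by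
    refine ne_top_of_le_ne_top ?_ (LI_mono hXm
      (v := fun _ => ∑ b ∈ Y.B, (((ε * r b) ^ 2)⁻¹ + ‖Y.a b‖ * (ε * r b)⁻¹)) fun z hz => ?_)
    · rw [LI_const]
      exact ENNReal.mul_ne_top ENNReal.ofReal_ne_top
        ((measure_mono hXs).trans_lt measure_ball_lt_top).ne
    · refine (norm_sum_le _ _).trans (Finset.sum_le_sum fun b hb => ?_)
      have a1 : ε * r b ≤ ‖z - b‖ := by
        by_contra h
        rw [hX] at hz
        exact hz.2 (mem_iUnion₂.mpr ⟨b, hb, by simpa [dist_eq_norm] using h⟩)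
      have a2 : 0 < ε * r b := mul_pos hε (hr b hb)
      refine (norm_add_le _ _).trans (add_le_add ?_ ?_)
      · rw [norm_inv, norm_pow]
        exact inv_anti₀ (by positivity) (pow_le_pow_left₀ a2.le a1 2)
      · rw [norm_mul, norm_inv]
        exact mul_le_mul_of_nonneg_left (inv_anti₀ a2 a1) (norm_nonneg _)
  have h5 := (LI_mono_set hXs _).trans (hd.2 R hR0)
  have h6 : ∀ b ∈ Y.B, 0 ≤ (1 + η) * π * ((m b / (1 - η)) ^ 2 - 1) := fun b _ =>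
    mul_nonneg (by positivity) (sub_nonneg.mpr (one_le_pow₀
      ((one_le_div h1η).mpr (by linarith [hm b]))))
  have h7 := (LI_mono_set h2 fun y => ‖Y.q y‖).trans ((LI_union_le _ _ _).trans
    (add_le_add le_rfl ((LI_biUnion_le _ _ _).trans (Finset.sum_le_sum h3))))
  have h8 := h1.trans (add_le_add h7 h5)
  rw [add_assoc, ENNReal.add_le_add_iff_left h4, ← ENNReal.ofReal_sum_of_nonneg h6,
    ← ENNReal.ofReal_add (Finset.sum_nonneg h6) (by positivity)] at h8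
  exact hX ▸ h8

theorem t52_loss {s : ℝ} (hd : Y.Def s) {R : ℝ} (hR : Λ ≤ R) :
    LI (ball 0 R) (loss Y.T Y.q) ≤
      ENNReal.ofReal (π * (max 1 ‖Y.ρ‖ ^ 2 - 1) + 2 * π * R * s) := by
  obtain ⟨r, m, hr, hm, hrm, hs⟩ := Y.t52_rad
  have h1 : ∀ η ∈ Ioo (0 : ℝ) 1, LI (ball 0 R) (loss Y.T Y.q) ≤ ENNReal.ofReal
      (∑ b ∈ Y.B, (1 + η) * π * ((m b / (1 - η)) ^ 2 - 1) + 2 * π * R * s) := by
    intro η hη
    obtain ⟨δ, hδ0, hδ⟩ := Y.t52_loc hη.1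
    obtain ⟨T, hT⟩ : ∃ T, T = ∑ b ∈ Y.B, r b := ⟨_, rfl⟩
    have hT0 : 0 < T := hT ▸ Finset.sum_pos hr Y.ne
    have hrT : ∀ b ∈ Y.B, r b ≤ T := fun b hb =>
      hT ▸ Finset.single_le_sum (fun b hb => (hr b hb).le) hb
    have hε : ∀ n : ℕ, 0 < δ / T / (n + 1) := fun n => by positivity
    have h2 : ball (0 : ℂ) R \ Y.B ⊆
        ⋃ n : ℕ, (ball 0 R \ ⋃ b ∈ Y.B, ball b (δ / T / (n + 1) * r b)) := by
      intro z hz
      have a1 : ∀ b ∈ Y.B, ∀ᶠ n : ℕ in atTop, δ / T / (n + 1) * r b < ‖z - b‖ := by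
        intro b hb
        have a2 : Tendsto (fun n : ℕ => δ / T / (n + 1) * r b) atTop (𝓝 (0 * r b)) :=
          ((tendsto_natCast_atTop_atTop.atTop_add tendsto_const_nhds).const_div_atTop _).mul_const _
        refine a2.eventually (gt_mem_nhds ?_)
        rw [zero_mul]
        exact norm_pos_iff.mpr (sub_ne_zero.mpr fun h => hz.2 (h ▸ hb))
      obtain ⟨n, hn⟩ := ((Finset.eventually_all Y.B).mpr a1).exists
      refine mem_iUnion.mpr ⟨n, hz.1, fun h => ?_⟩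
      obtain ⟨b, hb, hzb⟩ := mem_iUnion₂.mp h
      rw [mem_ball, dist_eq_norm] at hzb
      exact absurd (hn b hb) (not_lt.mpr hzb.le)
    have h3 : LI (ball 0 R) (loss Y.T Y.q) = LI (ball 0 R \ Y.B) (loss Y.T Y.q) :=
      setLIntegral_congr (sdiff_null_ae_eq_self (Y.B.finite_toSet.measure_zero _)).symm
    rw [h3]
    refine (LI_mono_set h2 _).trans ?_
    unfold LI
    rw [setLIntegral_iUnion_of_directed _ (Monotone.directed_le fun n n' hn => ?_)]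
    · refine iSup_le fun n => Y.t52_step hd hR hr hm hrm hη.1 hη.2 (hε n) (fun b hb => ?_) hδ
      have a1 : δ / T / (n + 1) ≤ δ / T := div_le_self (by positivity) (by simp)
      calc δ / T / (n + 1) * r b ≤ δ / T * T :=
            mul_le_mul a1 (hrT b hb) (hr b hb).le (by positivity)
        _ = δ := div_mul_cancel₀ _ hT0.ne'
    · refine sdiff_subset_sdiff_right (iUnion₂_mono fun b hb => ball_subset_ball ?_)
      refine mul_le_mul_of_nonneg_right (div_le_div_of_nonneg_left (by positivity) (by positivity)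
        ?_) (hr b hb).le
      exact_mod_cast Nat.succ_le_succ hn
  have h2 : ContinuousAt (fun η : ℝ => ENNReal.ofReal
      (∑ b ∈ Y.B, (1 + η) * π * ((m b / (1 - η)) ^ 2 - 1) + 2 * π * R * s)) 0 := by
    refine ENNReal.continuous_ofReal.continuousAt.comp (ContinuousAt.add ?_ continuousAt_const)
    refine tendsto_finsetSum _ fun b _ => ?_
    exact ContinuousAt.tendsto (f := fun η : ℝ => (1 + η) * π * ((m b / (1 - η)) ^ 2 - 1))
      (by fun_prop (disch := norm_num))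
  have h3 := ge_of_tendsto (h2.tendsto.mono_left (nhdsWithin_le_nhds (s := Ioi 0)))
    (by filter_upwards [Ioo_mem_nhdsGT one_pos] with η hη using h1 η hη)
  simp only [add_zero, one_mul, sub_zero, div_one, ← Finset.mul_sum, hs] at h3
  exact h3

theorem measurable_def : Measurable fun y => ‖Y.q y - Tr Y.T Y.q y‖ :=
  (Y.measurable_q.sub (measurable_Tr Y.adm.dpos Y.measurable_q)).norm

theorem mass {s : ℝ} (hd : Y.Def s) {R : ℝ} (hR : Λ ≤ R) :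
    LI (ball 0 R) Y.err ≤ ENNReal.ofReal (π * (max 1 ‖Y.ρ‖ ^ 2 - 1) + 6 * π * R * s) := by
  have h3 : 0 ≤ R := Y.adm.pos.le.trans hR
  have h4 := hd.1
  have h1 : LI (ball 0 R) (fun y => 2 * ‖Y.q y - Tr Y.T Y.q y‖) ≤
      ENNReal.ofReal (2 * (2 * π * R * s)) := by
    rw [LI_const_mul _ (by positivity), ENNReal.ofReal_mul (p := 2) (by positivity)]
    exact mul_le_mul_right (hd.2 R h3) _
  have h2 : 0 ≤ π * (max 1 ‖Y.ρ‖ ^ 2 - 1) :=
    mul_nonneg pi_pos.le (sub_nonneg.mpr (one_le_pow₀ (le_max_left _ _)))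
  refine (LI_add_le _ (measurable_loss Y.adm.dpos Y.measurable_q) _).trans
    ((add_le_add (Y.t52_loss hd hR) h1).trans (le_of_eq ?_))
  rw [← ENNReal.ofReal_add (by positivity) (by positivity)]
  congr 1
  ring

theorem err_nonneg (y : ℂ) : 0 ≤ Y.err y :=
  add_nonneg (loss_nonneg _ _) (by positivity)

theorem measurable_err : Measurable Y.err :=
  (measurable_loss Y.adm.dpos Y.measurable_q).add (Y.measurable_def.const_mul _)

theorem step (w : ℂ) : ‖tm Y.T Y.q w‖ + ‖Y.q (fp Y.T w) - tm Y.T Y.q w‖ ≤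
    ‖Y.q (fp Y.T w)‖ + Y.err (fp Y.T w) := by
  obtain ⟨S, h1, h2⟩ := loss_one Y.adm.dpos Y.q w
  have h5 := norm_sub_le_norm_sub_add_norm_sub (Y.q (fp Y.T w)) (Tr Y.T Y.q (fp Y.T w))
    (tm Y.T Y.q w)
  have h6 := norm_le_norm_add_norm_sub (Y.q (fp Y.T w)) (Tr Y.T Y.q (fp Y.T w))
  unfold err
  linarith

theorem step2 {w w' : ℂ} (hne : w ≠ w') (hf : fp Y.T w' = fp Y.T w) :
    ‖tm Y.T Y.q w‖ + ‖tm Y.T Y.q w'‖ ≤ ‖Y.q (fp Y.T w)‖ + Y.err (fp Y.T w) := by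
  have h1 := loss_two Y.adm.dpos Y.q hne hf
  have h6 := norm_le_norm_add_norm_sub (Y.q (fp Y.T w)) (Tr Y.T Y.q (fp Y.T w))
  unfold err
  linarith [norm_nonneg (Y.q (fp Y.T w) - Tr Y.T Y.q (fp Y.T w))]

/-- Telescoping along a branch. -/
theorem tele0 {k : ℕ} {h : ℂ → ℂ} {O : Set ℂ} (hO : IsOpen O) (hb : Br Y.T k h O)
    {z : ℂ} (hz : z ∈ O) : ‖Y.q (h z) * deriv h z ^ 2‖ + ‖Y.q z - Y.q (h z) * deriv h z ^ 2‖ +
      ‖deriv h z‖ ^ 2 * Y.err (h z) ≤ ‖Y.q z‖ + Y.Err k h z := by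
  induction k generalizing h with
  | zero =>
    have h1 : h z = z := hb.inv z hz
    have h2 : deriv h z = 1 := by simpa [Pd_zero] using hb.mul_deriv hO hz
    simp [Err, h1, h2]
  | succ k ih =>
    have h0 := hb.ne_zero hO (Nat.succ_pos k) hz
    have h1 := ih (h := fun v => fp Y.T (h v))
      ⟨fp_diff.comp_differentiableOn hb.diff, fun v hv => hb.inv v hv⟩
    have h2 : deriv (fun v => fp Y.T (h v)) z = lam Y.T (h z) * deriv h z :=
      ((fp_deriv (h z)).comp z (hb.diff.hasDerivAt (hO.mem_nhds hz))).deriv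
    have h3 : tm Y.T Y.q (h z) * deriv (fun v => fp Y.T (h v)) z ^ 2 =
        Y.q (h z) * deriv h z ^ 2 := by
      rw [h2, tm]
      field_simp
    have h5 := mul_le_mul_of_nonneg_right (Y.step (h z))
      (norm_nonneg (deriv (fun v => fp Y.T (h v)) z ^ 2))
    rw [add_mul, add_mul, ← norm_mul, ← norm_mul, ← norm_mul, sub_mul, norm_pow, h3] at h5
    have h6 : Y.Err (k + 1) h z =
        Y.Err k (fun v => fp Y.T (h v)) z + ‖deriv h z‖ ^ 2 * Y.err (h z) := by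
      unfold Err
      rw [Finset.sum_range_succ']
      rfl
    have h7 := norm_sub_le_norm_sub_add_norm_sub (Y.q z)
      (Y.q (fp Y.T (h z)) * deriv (fun v => fp Y.T (h v)) z ^ 2) (Y.q (h z) * deriv h z ^ 2)
    rw [h6]
    linarith

/-- Any preimage `w` of `h z` contributes a term aligned with `q z`. -/
theorem tele {k : ℕ} {h : ℂ → ℂ} {O : Set ℂ} (hO : IsOpen O) (hb : Br Y.T k h O)
    {z : ℂ} (hz : z ∈ O) {w : ℂ} (hf : fp Y.T w = h z) :
    ‖tm Y.T Y.q w * deriv h z ^ 2‖ + ‖Y.q z - tm Y.T Y.q w * deriv h z ^ 2‖ ≤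
      ‖Y.q z‖ + Y.Err k h z := by
  have h1 := Y.tele0 hO hb hz
  have h5 := mul_le_mul_of_nonneg_right (Y.step w) (norm_nonneg (deriv h z ^ 2))
  rw [hf, add_mul, add_mul, ← norm_mul, ← norm_mul, ← norm_mul, sub_mul, norm_pow] at h5
  have h7 := norm_sub_le_norm_sub_add_norm_sub (Y.q z) (Y.q (h z) * deriv h z ^ 2)
    (tm Y.T Y.q w * deriv h z ^ 2)
  linarith

/-- Two preimages share the mass. -/
theorem tele2 {k : ℕ} {h : ℂ → ℂ} {O : Set ℂ} (hO : IsOpen O) (hb : Br Y.T k h O)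
    {z : ℂ} (hz : z ∈ O) {w w' : ℂ} (hf : fp Y.T w = h z) (hf' : fp Y.T w' = h z) (hne : w ≠ w') :
    ‖tm Y.T Y.q w * deriv h z ^ 2‖ + ‖tm Y.T Y.q w' * deriv h z ^ 2‖ ≤ ‖Y.q z‖ + Y.Err k h z := by
  have h1 := Y.tele0 hO hb hz
  have h5 := mul_le_mul_of_nonneg_right (Y.step2 hne (hf'.trans hf.symm))
    (norm_nonneg (deriv h z ^ 2))
  rw [hf, add_mul, add_mul, ← norm_mul, ← norm_mul, ← norm_mul, norm_pow] at h5
  linarith [norm_nonneg (Y.q z - Y.q (h z) * deriv h z ^ 2)]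

end Cyc

/-- The accumulated error under a multiplicity bound. -/
theorem LI_Err' {d : ℕ} {Λ : ℝ} (Y : Cyc d Λ)
    {b : ℂ} {R R' : ℝ} {k m : ℕ} {h : ℂ → ℂ} {W : Set ℂ}
    (hc : Λ ≤ R') (hR : ‖b‖ + R ≤ R') (hb : Br Y.T k h (ball b R)) (hW : MeasurableSet W)
    (hsub : W ⊆ ball b R) (hm : ∀ (v : ℂ) (J : Finset ℕ),
      (∀ j ∈ J, j ≤ k ∧ ∃ z ∈ W, (fp Y.T)^[j] (h z) = v) → J.card ≤ m) :
    LI W (Y.Err k h) ≤ m * LI (ball 0 R') Y.err := by
  classical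
  obtain ⟨g, hg⟩ : ∃ g : ℕ → ℂ → ℂ, g = fun j v => (fp Y.T)^[j] (h v) := ⟨_, rfl⟩
  have hgb : ∀ j ∈ Finset.range (k + 1), Br Y.T (k - j) (g j) (ball b R) := fun j hj => by
    rw [hg]; exact hb.iter (Nat.lt_succ_iff.1 (Finset.mem_range.1 hj))
  have hcont : ∀ j ∈ Finset.range (k + 1), ContinuousOn (g j) W := fun j hj =>
    (hgb j hj).diff.continuousOn.mono hsub
  have hinj : ∀ j ∈ Finset.range (k + 1), InjOn (g j) W := fun j hj =>
    ((hgb j hj).univ isOpen_ball).inj.mono hsub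
  have hmeas : ∀ j ∈ Finset.range (k + 1), MeasurableSet (g j '' W) := fun j hj =>
    hW.image_of_continuousOn_injOn (hcont j hj) (hinj j hj)
  have hu : Measurable fun y => ENNReal.ofReal (Y.err y) := Y.measurable_err.ennreal_ofReal
  have e1 : LI W (Y.Err k h) = ∑ j ∈ Finset.range (k + 1), LI (g j '' W) Y.err := by
    rw [Finset.sum_congr rfl fun j hj => LI_image hW (h' := deriv (g j))
      (fun z hz => (hgb j hj).diff.hasDerivAt (isOpen_ball.mem_nhds (hsub hz))) (hinj j hj) Y.err]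
    unfold LI
    refine Eq.trans (lintegral_congr fun z => ?_) (lintegral_finsetSum' (μ := volume.restrict W)
      (f := fun j z => ENNReal.ofReal (‖deriv (g j) z‖ ^ 2 * Y.err (g j z))) _
      fun j hj => AEMeasurable.ennreal_ofReal
        (((measurable_deriv (g j)).norm.pow_const 2).aemeasurable.mul
          (Y.measurable_err.comp_aemeasurable ((hcont j hj).aemeasurable hW))))
    rw [hg]
    exact ENNReal.ofReal_sum_of_nonneg fun j _ => mul_nonneg (by positivity) (Y.err_nonneg _)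
  rw [e1]
  unfold LI
  rw [Finset.sum_congr rfl fun j hj => (lintegral_indicator (hmeas j hj) _).symm,
    ← lintegral_finsetSum _ fun j hj => hu.indicator (hmeas j hj),
    ← lintegral_indicator measurableSet_ball,
    ← lintegral_const_mul _ (hu.indicator measurableSet_ball)]
  refine lintegral_mono fun y => ?_
  obtain ⟨J, hJ⟩ : ∃ J, J = (Finset.range (k + 1)).filter fun j => y ∈ g j '' W := ⟨_, rfl⟩
  have hJ' : ∀ j ∈ J, j ∈ Finset.range (k + 1) ∧ y ∈ g j '' W := fun j hj => by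
    rw [hJ] at hj; exact Finset.mem_filter.1 hj
  have e2 : ∑ j ∈ Finset.range (k + 1), (g j '' W).indicator (fun y => ENNReal.ofReal (Y.err y)) y =
      J.card * ENNReal.ofReal (Y.err y) := by
    rw [hJ, ← nsmul_eq_mul, ← Finset.sum_const, Finset.sum_filter]
    exact Finset.sum_congr rfl fun j _ => indicator_apply _ _ _
  have hcard : J.card ≤ m := by
    refine hm y J fun j hj => ?_
    obtain ⟨a1, z, hz, hzy⟩ := hJ' j hj
    rw [hg] at hzy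
    exact ⟨Nat.lt_succ_iff.1 (Finset.mem_range.1 a1), z, hz, hzy⟩
  rw [e2]
  rcases J.eq_empty_or_nonempty with h0 | ⟨j, hj⟩
  · simp [h0]
  · obtain ⟨a1, z, hz, rfl⟩ := hJ' j hj
    have hy : g j z ∈ ball (0 : ℂ) R' := by
      refine mem_ball_zero_iff.2 (back_ball Y.adm.esc hc (k - j) ?_)
      rw [(hgb j a1).inv z (hsub hz)]
      have a2 := mem_ball_iff_norm.1 (hsub hz)
      have a3 := norm_sub_norm_le z b
      linarith
    rw [indicator_of_mem hy]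
    exact mul_le_mul_left (Nat.cast_le.2 hcard) _

/-- The accumulated error along a branch is controlled by the total error. -/
theorem LI_Err {d : ℕ} {Λ : ℝ} {θ ε : ℝ} (hε : 0 < ε) (hθ : θ + ε ≤ 1) : ∃ m : ℕ,
    ∀ (Y : Cyc d Λ) (b : ℂ) (R R' : ℝ) (p : ℕ → ℂ) (k : ℕ) (h : ℂ → ℂ) (W : Set ℂ), 0 < R →
    Λ ≤ R' → ‖b‖ + R ≤ R' → p 0 = b → (∀ j, p j ∈ Y.B) →
    (∀ j, fp Y.T (p (j + 1)) = p j) →
    (∀ i < Y.B.card, ∀ j < Y.B.card, p i = p j → i = j) → k < Y.B.card →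
    Br Y.T k h (ball b R) → h b = p k → (∀ b' ∈ Y.B, b' ≠ b → ε * R ≤ ‖b - b'‖) →
    MeasurableSet W →
    (∀ z ∈ W, ‖z - b‖ ≤ θ * R ∧ ∀ b' ∈ Y.B, b' ≠ b → ε * R ≤ ‖z - b'‖) →
    LI W (Y.Err k h) ≤ m * LI (ball 0 R') Y.err := by
  classical
  obtain ⟨m, hm⟩ := overlap hε hθ
  refine ⟨m, fun Y b R R' p k h W hR hR' hbR hp0 hpB hp hpi hk hb hh hsep hW hWb => ?_⟩
  have hsub : W ⊆ ball b R := fun z hz => by
    rw [mem_ball, dist_eq_norm]
    nlinarith [(hWb z hz).1, mul_pos hε hR]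
  have hit : ∀ j i, (fp Y.T)^[j] (p (i + j)) = p i := fun j => by
    induction j with
    | zero => exact fun _ => rfl
    | succ j ih => intro i; rw [Function.iterate_succ_apply, ← add_assoc, hp, ih]
  obtain ⟨g, hg⟩ : ∃ g : ℕ → ℂ → ℂ, g = fun j v => (fp Y.T)^[j] (h v) := ⟨_, rfl⟩
  have hgb : ∀ j ∈ Finset.range (k + 1), Br Y.T (k - j) (g j) (ball b R) := fun j hj => by
    rw [hg]; exact hb.iter (Nat.lt_succ_iff.1 (Finset.mem_range.1 hj))
  have hgp : ∀ j ∈ Finset.range (k + 1), g j b = p (k - j) := fun j hj => by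
    rw [hg, ← hit j (k - j), Nat.sub_add_cancel (Nat.lt_succ_iff.1 (Finset.mem_range.1 hj)), ← hh]
  refine LI_Err' Y hR' hbR hb hW hsub fun y J hJ => ?_
  have hJ' : ∀ j ∈ J, j ∈ Finset.range (k + 1) := fun j hj =>
    Finset.mem_range.2 (Nat.lt_succ_of_le (hJ j hj).1)
  refine hm b R {b' | b' ∈ Y.B ∧ b' ≠ b} J g y hR
    (fun j hj => (hgb j (hJ' j hj)).univ isOpen_ball) (fun j hj j' hj' hne z hz hzz => ?_)
    (fun t ht => hsep t ht.1 ht.2) fun j hj => ?_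
  · have a1 := hJ' j hj
    have a2 := hJ' j' hj'
    refine ⟨?_, fun hzb => hne ?_⟩
    · rw [← (hgb j a1).inv z hz, hzz, hgp j' a2]
      exact Y.iter_mem (hpB _) _
    · rw [hzb, hgp j a1, hgp j' a2] at hzz
      have := hpi _ (by omega) _ (by omega) hzz
      rw [Finset.mem_range] at a1 a2
      omega
  · obtain ⟨z, hz, hzy⟩ := (hJ j hj).2
    exact ⟨z, (hWb z hz).1, fun t ht => (hWb z hz).2 t ht.1 ht.2, hg ▸ hzy⟩

variable {d : ℕ} {Λ : ℝ}

/-- The ratio, in a form that is holomorphic at the base point. -/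
noncomputable def rat (Y : Cyc d Λ) (b p : ℂ) (h Z ζ : ℂ → ℂ) (τ₁ τ : ℂ) : ℂ :=
  Y.U p (ζ τ) * (dslope Z τ₁ τ / dslope ζ τ₁ τ) ^ 2 * (deriv h (Z τ) / lam Y.T (ζ τ)) ^ 2 /
    Y.U b (Z τ)

theorem rat_eq (Y : Cyc d Λ) {b p : ℂ} (hb : b ∈ Y.B) (hp : p ∈ Y.B) (h : ℂ → ℂ) {Z ζ : ℂ → ℂ}
    {τ₁ τ : ℂ} (hZ₁ : Z τ₁ = b) (hζ₁ : ζ τ₁ = p) (hZB : Z τ ∉ Y.B) (hζB : ζ τ ∉ Y.B) :
    rat Y b p h Z ζ τ₁ τ = tm Y.T Y.q (ζ τ) * deriv h (Z τ) ^ 2 / Y.q (Z τ) := by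
  have hZb : Z τ ≠ b := fun h => hZB (h ▸ hb)
  have hne : τ ≠ τ₁ := fun h => hZb (h ▸ hZ₁)
  have hζp : ζ τ - p ≠ 0 := sub_ne_zero.mpr fun h => hζB (h ▸ hp)
  have hZb' : Z τ - b ≠ 0 := sub_ne_zero.mpr hZb
  have hτ1 : τ - τ₁ ≠ 0 := sub_ne_zero.mpr hne
  unfold rat tm
  rw [dslope_of_ne _ hne, dslope_of_ne _ hne, slope_def_field, slope_def_field, hZ₁, hζ₁,
    Y.q_eq hb hZB, Y.q_eq hp hζB]
  field_simp

theorem loc_est (Y : Cyc d Λ) {b p : ℂ} (hb : b ∈ Y.B) (hp : p ∈ Y.B) {k : ℕ}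
    {h : ℂ → ℂ} {R : ℝ} (hBr : Br Y.T k h (ball b R)) {Z ζ : ℂ → ℂ} {O : Set ℂ} (hO : IsOpen O)
    (dZ : DifferentiableOn ℂ Z O) (dζ : DifferentiableOn ℂ ζ O) (hm : ∀ τ ∈ O, Z τ ∈ ball b R)
    (hf : ∀ τ ∈ O, fp Y.T (ζ τ) = h (Z τ)) {τ₁ : ℂ} (hτ₁ : τ₁ ∈ O) (hZ₁ : Z τ₁ = b)
    (hζ₁ : ζ τ₁ = p) {τ₀ : ℂ} {ε : ℝ} (hsub : ball τ₀ ε ⊆ O) (hinj : InjOn Z (ball τ₀ ε))
    {W : Set ℂ} (hW : MapsTo Z (ball τ₀ ε) W) {m C : ℝ} (hm0 : 0 < m)
    (hg : ∀ τ ∈ ball τ₀ ε, (Z τ ∈ Y.B → Z τ = b) ∧ m⁻¹ ≤ ‖Y.U b (Z τ)‖ ∧ lam Y.T (ζ τ) ≠ 0 ∧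
      ‖Z τ - b‖ ≤ C * ‖deriv Z τ‖ ∧ dslope ζ τ₁ τ ≠ 0) :
    DifferentiableOn ℂ (rat Y b p h Z ζ τ₁) (ball τ₀ ε) ∧
      LI (ball τ₀ ε) (fun τ => ‖rat Y b p h Z ζ τ₁ τ‖ + ‖1 - rat Y b p h Z ζ τ₁ τ‖ - 1) ≤
        ENNReal.ofReal (m * C ^ 2) * LI W (Y.Err k h) := by
  have hiter : ∀ τ ∈ O, (fp Y.T)^[k + 1] (ζ τ) = Z τ := fun τ hτ => by
    rw [Function.iterate_succ_apply, hf τ hτ, hBr.inv _ (hm τ hτ)]
  have hU0 : ∀ τ ∈ ball τ₀ ε, Y.U b (Z τ) ≠ 0 := fun τ hτ h0 => by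
    have := (hg τ hτ).2.1
    rw [h0, norm_zero] at this
    exact absurd (inv_pos.mpr hm0) (not_lt.mpr this)
  constructor
  · have d1 : DifferentiableOn ℂ (dslope Z τ₁) O :=
      (Complex.differentiableOn_dslope (hO.mem_nhds hτ₁)).mpr dZ
    have d2 : DifferentiableOn ℂ (dslope ζ τ₁) O :=
      (Complex.differentiableOn_dslope (hO.mem_nhds hτ₁)).mpr dζ
    have d3 : DifferentiableOn ℂ (deriv h) (ball b R) := hBr.diff.deriv isOpen_ball
    intro τ hτ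
    have hτO := hsub hτ
    have hn := hO.mem_nhds hτO
    obtain ⟨g1, -, g3, -, g5⟩ := hg τ hτ
    have hZ := dZ.differentiableAt hn
    have hζ := dζ.differentiableAt hn
    have e1 : DifferentiableAt ℂ (fun τ => Y.U p (ζ τ)) τ := by
      refine (Y.U_diff fun hz => ?_).comp τ hζ
      refine Y.iter_inj hz hp (k + 1) ?_
      rw [hiter τ hτO, ← hζ₁, hiter τ₁ hτ₁, hZ₁]
      exact g1 (hiter τ hτO ▸ Y.iter_mem hz (k + 1))
    have e2 : DifferentiableAt ℂ (fun τ => Y.U b (Z τ)) τ := (Y.U_diff g1).comp τ hZ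
    have e3 : DifferentiableAt ℂ (fun τ => deriv h (Z τ)) τ :=
      (d3.differentiableAt (isOpen_ball.mem_nhds (hm τ hτO))).comp τ hZ
    have e4 : DifferentiableAt ℂ (fun τ => lam Y.T (ζ τ)) τ := (lam_diff _).comp τ hζ
    exact (((e1.mul (((d1.differentiableAt hn).div (d2.differentiableAt hn) g5).pow 2)).mul
      ((e3.div e4 g3).pow 2)).div e2 (hU0 τ hτ)).differentiableWithinAt
  · have hnull : volume {τ ∈ ball τ₀ ε | Z τ = b} = 0 := by
      refine Set.Subsingleton.measure_zero (fun x hx y hy => ?_) _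
      exact hinj hx.1 hy.1 (hx.2.trans hy.2.symm)
    have hmC : 0 ≤ m * C ^ 2 := by positivity
    calc _ ≤ LI (ball τ₀ ε) (fun τ => m * C ^ 2 * (‖deriv Z τ‖ ^ 2 * Y.Err k h (Z τ))) := by
          refine LI_mono_ae measurableSet_ball hnull fun τ hτ hτ' => ?_
          have hτO := hsub hτ
          obtain ⟨g1, g2, g3, g4, g5⟩ := hg τ hτ
          have hZb : Z τ ≠ b := fun h => hτ' ⟨hτ, h⟩
          have hZB : Z τ ∉ Y.B := fun h => hZb (g1 h)
          have hζB : ζ τ ∉ Y.B := fun h => hZB (hiter τ hτO ▸ Y.iter_mem h (k + 1))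
          have hU := hU0 τ hτ
          have hZb' : Z τ - b ≠ 0 := sub_ne_zero.mpr hZb
          have hq : Y.q (Z τ) ≠ 0 := by
            rw [Y.q_eq hb hZB]
            exact div_ne_zero hU (pow_ne_zero _ hZb')
          have hr := rat_eq Y hb hp h hZ₁ hζ₁ hZB hζB
          have ht := Y.tele isOpen_ball hBr (hm τ hτO) (hf τ hτO)
          have hq0 : 0 < ‖Y.q (Z τ)‖ := norm_pos_iff.mpr hq
          have hE : 0 ≤ Y.Err k h (Z τ) :=
            Finset.sum_nonneg fun j _ => mul_nonneg (by positivity) (Y.err_nonneg _)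
          have h1 : ‖rat Y b p h Z ζ τ₁ τ‖ + ‖1 - rat Y b p h Z ζ τ₁ τ‖ - 1 ≤
              Y.Err k h (Z τ) * ‖Y.q (Z τ)‖⁻¹ := by
            rw [hr, one_sub_div hq, norm_div, norm_div, ← add_div, sub_le_iff_le_add,
              div_le_iff₀ hq0, add_mul, inv_mul_cancel_right₀ hq0.ne', one_mul]
            linarith
          have h2 : ‖Y.q (Z τ)‖⁻¹ ≤ m * C ^ 2 * ‖deriv Z τ‖ ^ 2 := by
            rw [Y.q_eq hb hZB, norm_div, norm_pow, inv_div, div_eq_mul_inv]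
            have h3 : ‖Y.U b (Z τ)‖⁻¹ ≤ m := inv_le_of_inv_le₀ hm0 g2
            have h4 : ‖Z τ - b‖ ^ 2 ≤ (C * ‖deriv Z τ‖) ^ 2 := by gcongr
            calc _ ≤ (C * ‖deriv Z τ‖) ^ 2 * m := by gcongr
              _ = _ := by ring
          calc _ ≤ _ := h1
            _ ≤ Y.Err k h (Z τ) * (m * C ^ 2 * ‖deriv Z τ‖ ^ 2) := by gcongr
            _ = _ := by ring
      _ = ENNReal.ofReal (m * C ^ 2) * LI (Z '' ball τ₀ ε) (Y.Err k h) := by
          rw [LI_const_mul _ hmC, LI_image measurableSet_ball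
            (fun τ hτ => dZ.hasDerivAt (hO.mem_nhds (hsub hτ))) hinj]
      _ ≤ _ := by
          gcongr
          exact LI_mono_set hW.image_subset _

theorem neg_le_two' (a : ℂ) : ‖1 - a‖ - (1 - a).re ≤ ‖a‖ + ‖1 - a‖ - 1 := by
  have := Complex.re_le_norm a
  simp only [Complex.sub_re, Complex.one_re]
  linarith

end Pool.Agent.MP_28f8a1_an.G42
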