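import Pool.Agent.MP_28f8a1_an.G42.Mass
import Pool.Agent.MP_28f8a1_an.H42.Norm

/-! Sequences of cycles whose differentials are more and more invariant. -/

set_option autoImplicit false

namespace Pool.Agent.MP_28f8a1_an.G42

open MeasureTheory Metric Set Real Filter Topology Polynomial Pool.Agent.MP_28f8a1_an.H42
open scoped ENNReal

/-- A sequence of cycles with base points, scales and exceptional limit sets. -/
structure Setup (d : ℕ) (Λ : ℝ) where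
  𝒰 : Ultrafilter ℕ
  Y : ℕ → Cyc d Λ
  p : ℕ → ℕ → ℂ
  r : ℕ → ℝ
  E : Set ℂ
  F : Set ℂ
  pmem : ∀ n k, p n k ∈ (Y n).B
  pstep : ∀ n k, fp (Y n).T (p n (k + 1)) = p n k
  pinj : ∀ n, ∀ i < (Y n).B.card, ∀ j < (Y n).B.card, p n i = p n j → i = j
  rpos : ∀ n, 0 < r n
  rle : ∀ n, r n ≤ 2 * Λ
  iso : ∀ n, ∀ b ∈ (Y n).B, b ≠ p n 0 → r n ≤ ‖b - p n 0‖
  ρlo : ∀ n, 1 / 2 ≤ ‖(Y n).ρ‖
  ρhi : ∀ n, ‖(Y n).ρ‖ ≤ 2
  ρne : ∀ n, (Y n).ρ ≠ 1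
  small : ∀ R, Λ ≤ R → ∀ δ > 0, ∀ᶠ n in (𝒰 : Filter ℕ),
    LI (ball 0 R) (Y n).err ≤ ENNReal.ofReal δ
  rate : ∀ R, Λ ≤ R → ∃ C, 0 ≤ C ∧ ∀ n,
    LI (ball 0 R) (Y n).err ≤ ENNReal.ofReal (C * ‖(Y n).ρ - 1‖)
  Ecl : IsClosed E
  Enull : μH[1] E = 0
  E0 : (0 : ℂ) ∉ E
  Eaway : ∀ x ∉ E, ∃ ε > 0, ∀ᶠ n in (𝒰 : Filter ℕ), ∀ y ∈ ball x ε,
    (p n 0 + r n * y ∈ (Y n).B → p n 0 + r n * y = p n 0) ∧
    (Y n).N.eval (p n 0 + r n * y) ≠ 0 ∧ (Y n).M.eval (p n 0 + r n * y) ≠ 0 ∧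
    ((Y n).M ^ 2 - C 1 * (Y n).N ^ 3).eval (p n 0 + r n * y) ≠ 0
  Fnull : μH[1] F = 0
  Faway : ∀ x ∉ F, ∃ ε > 0, ∀ᶠ n in (𝒰 : Filter ℕ), ∀ y ∈ ball x ε, ∀ j < (Y n).B.card,
    ∀ c, lam (Y n).T c = 0 → p n 0 + r n * y ≠ (fp (Y n).T)^[j + 1] c
  br0 : ∀ n, ∀ k ≤ (Y n).B.card, ∃ h, Br (Y n).T k h (ball (p n 0) (r n)) ∧ h (p n 0) = p n k
  touch : ∀ n, (∃ y : ℂ, y ≠ 0 ∧ ‖y‖ < 2 ∧ (p n 0 + r n * y ∈ (Y n).B ∨
    (Y n).N.eval (p n 0 + r n * y) = 0 ∨ (Y n).M.eval (p n 0 + r n * y) = 0 ∨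
    ((Y n).M ^ 2 - C 1 * (Y n).N ^ 3).eval (p n 0 + r n * y) = 0)) ∨
    ¬∀ k ≤ (Y n).B.card, ∃ h, Br (Y n).T k h (ball (p n 0) (2 * r n)) ∧ h (p n 0) = p n k

namespace Setup

variable {d : ℕ} {Λ : ℝ} (σ : Setup d Λ)

include σ in
theorem Λpos : 0 < Λ := (σ.Y 0).adm.pos

theorem ble (n k : ℕ) : ‖σ.p n k‖ < Λ := (σ.Y n).norm_lt (σ.pmem n k)

include σ in
theorem Λle {L : ℝ} (hL : 0 < L) : Λ ≤ Λ + 2 * Λ * L := by
  have := σ.Λpos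
  nlinarith

/-- The rescaled differential times the square of the coordinate. -/
noncomputable def u (n : ℕ) (y : ℂ) : ℂ := (σ.Y n).U (σ.p n 0) (σ.p n 0 + σ.r n * y)

theorem u_zero (n : ℕ) : σ.u n 0 = 1 := by
  simp [u, (σ.Y n).U_self (σ.pmem n 0)]

theorem u_diff {n : ℕ} {y : ℂ}
    (h : σ.p n 0 + σ.r n * y ∈ (σ.Y n).B → σ.p n 0 + σ.r n * y = σ.p n 0) :
    DifferentiableAt ℂ (σ.u n) y :=
  ((σ.Y n).U_diff h).comp y (by fun_prop)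

theorem p_iter (n k j : ℕ) : (fp (σ.Y n).T)^[k] (σ.p n (j + k)) = σ.p n j := by
  induction k with
  | zero => rfl
  | succ k ih => rw [Function.iterate_succ_apply, ← add_assoc, σ.pstep, ih]

theorem p_card (n : ℕ) : σ.p n (σ.Y n).B.card = σ.p n 0 := by
  have := σ.p_iter n (σ.Y n).B.card 0
  rwa [zero_add, (σ.Y n).fix _ (σ.pmem n _)] at this

theorem u_bounds : ∀ x ∉ σ.E, ∃ ε > 0, ∃ m > 0, ∀ᶠ n in (σ.𝒰 : Filter ℕ), ∀ y ∈ ball x ε,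
    (σ.p n 0 + σ.r n * y ∈ (σ.Y n).B → σ.p n 0 + σ.r n * y = σ.p n 0) ∧
      m⁻¹ ≤ ‖σ.u n y‖ ∧ ‖σ.u n y‖ ≤ m := by
  intro x hx
  have hc := preconn_diff isOpen_univ isPreconnected_univ σ.Ecl σ.Enull
  obtain ⟨ε, hε, m, hm, h1⟩ := two_sided (l := σ.𝒰) hc ⟨mem_univ _, σ.E0⟩ σ.u_zero (fun x hx => by
    obtain ⟨ε, hε, h⟩ := σ.Eaway x hx.2
    refine ⟨ε, hε, h.mono fun n hn => ⟨fun y hy => (σ.u_diff (hn y hy).1).differentiableWithinAt,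
      fun y hy => ?_⟩⟩
    obtain ⟨g1, g2, g3, g4⟩ := hn y hy
    obtain ⟨k1, k2, k3⟩ := (σ.Y n).chart (σ.pmem n 0) g1
    refine ⟨fun h => g2 (k1.mp h), fun h => g3 (k2.mp h), fun h => g4 ((k3 1).mp ?_)⟩
    rw [one_mul]
    exact h) x ⟨mem_univ _, hx⟩
  obtain ⟨ε', hε', h2⟩ := σ.Eaway x hx
  refine ⟨min ε ε', lt_min hε hε', m, hm, ?_⟩
  filter_upwards [h1, h2] with n g1 g2 y hy
  exact ⟨(g2 y (ball_subset_ball (min_le_right _ _) hy)).1,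
    g1 y (ball_subset_ball (min_le_left _ _) hy)⟩

theorem norm_r (n : ℕ) (y : ℂ) : ‖(σ.r n : ℂ) * y‖ = σ.r n * ‖y‖ := by
  rw [norm_mul, Complex.norm_real, Real.norm_eq_abs, abs_of_pos (σ.rpos n)]

/-- The accumulated error near a good point, uniformly in the branch. -/
theorem loss_le {L : ℝ} {x : ℂ} (hx : x ∉ σ.E) (hxL : ‖x‖ < L) :
    ∃ ε > 0, ∃ m > 0, ∃ M : ℕ, ‖x‖ + ε < L ∧ ∀ᶠ n in (σ.𝒰 : Filter ℕ),
      (∀ y ∈ ball x ε, (σ.p n 0 + σ.r n * y ∈ (σ.Y n).B → σ.p n 0 + σ.r n * y = σ.p n 0) ∧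
        m⁻¹ ≤ ‖σ.u n y‖) ∧
      ∀ k < (σ.Y n).B.card, ∀ h, Br (σ.Y n).T k h (ball (σ.p n 0) (L * σ.r n)) →
        h (σ.p n 0) = σ.p n k →
        LI (ball (σ.p n 0 + σ.r n * x) (ε * σ.r n)) ((σ.Y n).Err k h) ≤
          M * LI (ball 0 (Λ + 2 * Λ * L)) (σ.Y n).err := by
  obtain ⟨ε₁, hε₁, m, hm, h1⟩ := σ.u_bounds x hx
  have hL : 0 < L := (norm_nonneg _).trans_lt hxL
  obtain ⟨ε, hε, e1, e2, e3⟩ : ∃ ε > 0, 2 * ε ≤ ε₁ ∧ 2 * ε ≤ L - ‖x‖ ∧ ε ≤ 1 :=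
    ⟨min (min (ε₁ / 2) ((L - ‖x‖) / 2)) 1, by
      have : 0 < L - ‖x‖ := by linarith
      positivity,
      by linarith [min_le_left (min (ε₁ / 2) ((L - ‖x‖) / 2)) 1,
        min_le_left (ε₁ / 2) ((L - ‖x‖) / 2)],
      by linarith [min_le_left (min (ε₁ / 2) ((L - ‖x‖) / 2)) 1,
        min_le_right (ε₁ / 2) ((L - ‖x‖) / 2)], min_le_right _ _⟩
  obtain ⟨M, hM⟩ := LI_Err (d := d) (Λ := Λ) (θ := (‖x‖ + ε) / L) (ε := ε / L) (by positivity)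
    (by rw [← add_div, div_le_one hL]; linarith)
  refine ⟨ε, hε, m, hm, M, by linarith, ?_⟩
  filter_upwards [h1] with n g1
  have hr := σ.rpos n
  refine ⟨fun y hy => ?_, fun k hk h hb hh => ?_⟩
  · have := g1 y (ball_subset_ball (by linarith) hy)
    exact ⟨this.1, this.2.1⟩
  have a1 : ε / L * (L * σ.r n) = ε * σ.r n := by field_simp
  have a2 : (‖x‖ + ε) / L * (L * σ.r n) = (‖x‖ + ε) * σ.r n := by field_simp
  refine hM (σ.Y n) (σ.p n 0) (L * σ.r n) (Λ + 2 * Λ * L) (σ.p n) k h _ (by positivity)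
    (σ.Λle hL) (by nlinarith [σ.ble n 0, σ.rle n]) rfl (σ.pmem n) (σ.pstep n) (σ.pinj n) hk hb hh
    (fun b' hb' hne => ?_) measurableSet_ball (fun z hz => ⟨?_, fun b' hb' hne => ?_⟩)
  · rw [a1, norm_sub_rev]
    exact le_trans (by nlinarith) (σ.iso n b' hb' hne)
  · rw [a2]
    rw [mem_ball, dist_eq_norm] at hz
    calc ‖z - σ.p n 0‖ = ‖(z - (σ.p n 0 + σ.r n * x)) + σ.r n * x‖ := by ring_nf
      _ ≤ ‖z - (σ.p n 0 + σ.r n * x)‖ + ‖(σ.r n : ℂ) * x‖ := norm_add_le _ _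
      _ ≤ _ := by rw [σ.norm_r]; nlinarith
  · rw [a1]
    rw [mem_ball, dist_eq_norm] at hz
    by_contra hlt
    push Not at hlt
    have hr' : (σ.r n : ℂ) ≠ 0 := Complex.ofReal_ne_zero.mpr hr.ne'
    have hy : σ.p n 0 + σ.r n * ((b' - σ.p n 0) / σ.r n) = b' := by field_simp; ring
    refine hne (hy ▸ (g1 ((b' - σ.p n 0) / σ.r n) ?_).1 (hy.symm ▸ hb'))
    rw [mem_ball, dist_eq_norm]
    refine lt_of_mul_lt_mul_left ?_ hr.le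
    rw [← σ.norm_r]
    calc _ = ‖(z - (σ.p n 0 + σ.r n * x)) - (z - b')‖ := by congr 1; field_simp; ring
      _ ≤ _ := norm_sub_le _ _
      _ < _ := by nlinarith

theorem τ_le (n : ℕ) : ‖(σ.Y n).ρ - 1‖ ≤ 3 := by
  have := norm_sub_le (σ.Y n).ρ 1
  rw [norm_one] at this
  linarith [σ.ρhi n]

theorem τ_pos (n : ℕ) : 0 < ‖(σ.Y n).ρ - 1‖ := norm_pos_iff.mpr (sub_ne_zero.mpr (σ.ρne n))

theorem small_loss' {L : ℝ} {x : ℂ} (hx : x ∉ σ.E) (hxL : ‖x‖ < L) :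
    ∃ ε > 0, ∃ m > 0, ‖x‖ + ε < L ∧ ∀ δ > 0, ∀ᶠ n in (σ.𝒰 : Filter ℕ),
      (∀ y ∈ ball x ε, (σ.p n 0 + σ.r n * y ∈ (σ.Y n).B → σ.p n 0 + σ.r n * y = σ.p n 0) ∧
        m⁻¹ ≤ ‖σ.u n y‖) ∧
      ∀ k < (σ.Y n).B.card, ∀ h, Br (σ.Y n).T k h (ball (σ.p n 0) (L * σ.r n)) →
        h (σ.p n 0) = σ.p n k →
        LI (ball (σ.p n 0 + σ.r n * x) (ε * σ.r n)) ((σ.Y n).Err k h) ≤ ENNReal.ofReal δ := by
  obtain ⟨ε, hε, m, hm, M, h1, h2⟩ := σ.loss_le hx hxL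
  have hL : 0 < L := (norm_nonneg _).trans_lt hxL
  refine ⟨ε, hε, m, hm, h1, fun δ hδ => ?_⟩
  filter_upwards [h2, σ.small (Λ + 2 * Λ * L) (σ.Λle hL) (δ / (M + 1)) (by positivity)]
    with n g1 g2
  refine ⟨g1.1, fun k hk h hb hh => (g1.2 k hk h hb hh).trans ?_⟩
  calc (M : ℝ≥0∞) * _ ≤ ENNReal.ofReal M * ENNReal.ofReal (δ / (M + 1)) := by
        rw [ENNReal.ofReal_natCast]
        gcongr
    _ ≤ _ := by
        rw [← ENNReal.ofReal_mul (by positivity)]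
        refine ENNReal.ofReal_le_ofReal ?_
        rw [mul_div_assoc', div_le_iff₀ (by positivity)]
        nlinarith

end Setup

variable {d : ℕ} {Λ : ℝ}

theorem chain_rule {T : ℂ[X]} {h Z ζ : ℂ → ℂ} {O : Set ℂ} (hO : IsOpen O)
    (dZ : DifferentiableOn ℂ Z O) (dζ : DifferentiableOn ℂ ζ O)
    (hf : ∀ τ ∈ O, fp T (ζ τ) = h (Z τ)) {τ : ℂ} (hτ : τ ∈ O)
    (dh : DifferentiableAt ℂ h (Z τ)) :
    lam T (ζ τ) * deriv ζ τ = deriv h (Z τ) * deriv Z τ := by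
  have h1 := (fp_deriv (T := T) (ζ τ)).comp τ (dζ.hasDerivAt (hO.mem_nhds hτ))
  have h2 := dh.hasDerivAt.comp τ (dZ.hasDerivAt (hO.mem_nhds hτ))
  refine h1.unique (h2.congr_of_eventuallyEq ?_)
  filter_upwards [hO.mem_nhds hτ] with v hv using hf v hv

theorem rat_self (Y : Cyc d Λ) {b p : ℂ} (hb : b ∈ Y.B) (hp : p ∈ Y.B) {h Z ζ : ℂ → ℂ} {τ₁ : ℂ}
    (hZ : Z τ₁ = b) (hζ : ζ τ₁ = p) (h0 : deriv ζ τ₁ ≠ 0)
    (hc : lam Y.T (ζ τ₁) * deriv ζ τ₁ = deriv h (Z τ₁) * deriv Z τ₁) :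
    rat Y b p h Z ζ τ₁ τ₁ = 1 := by
  have hl : lam Y.T (ζ τ₁) ≠ 0 := hζ ▸ Y.ne0 p hp
  unfold rat
  rw [dslope_same, dslope_same, mul_assoc, ← mul_pow, div_mul_div_comm, mul_comm (deriv Z τ₁),
    ← hc, mul_comm (deriv ζ τ₁), div_self (mul_ne_zero hl h0), hZ, hζ, Y.U_self hb, Y.U_self hp]
  simp

theorem scale_small {a : ℝ} (ha : 0 ≤ a) {δ : ℝ} (hδ : 0 < δ) {x y : ℝ≥0∞}
    (h1 : x ≤ ENNReal.ofReal a * y) (h2 : y ≤ ENNReal.ofReal (δ / (a + 1))) :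
    x ≤ ENNReal.ofReal δ := by
  refine h1.trans ((mul_le_mul_right h2 _).trans ?_)
  rw [← ENNReal.ofReal_mul ha]
  refine ENNReal.ofReal_le_ofReal ?_
  rw [mul_div_assoc', div_le_iff₀ (by positivity)]
  nlinarith

namespace Setup

variable (σ : Setup d Λ)

/-- The affine chart at the base point. -/
noncomputable def A (n : ℕ) (y : ℂ) : ℂ := σ.p n 0 + σ.r n * y

theorem A_deriv (n : ℕ) (y : ℂ) : HasDerivAt (σ.A n) (σ.r n) y := by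
  have := ((hasDerivAt_id y).const_mul (σ.r n : ℂ)).const_add (σ.p n 0)
  rw [mul_one] at this
  exact this

theorem A_zero (n : ℕ) : σ.A n 0 = σ.p n 0 := by simp [A]

theorem r_ne (n : ℕ) : (σ.r n : ℂ) ≠ 0 := Complex.ofReal_ne_zero.mpr (σ.rpos n).ne'

theorem A_inj (n : ℕ) : Function.Injective (σ.A n) := fun _ _ h =>
  mul_left_cancel₀ (σ.r_ne n) (add_left_cancel h)

theorem A_mem {n : ℕ} {x y : ℂ} {ε : ℝ} : σ.A n y ∈ ball (σ.A n x) (ε * σ.r n) ↔ y ∈ ball x ε := by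
  rw [mem_ball, mem_ball, dist_eq_norm, dist_eq_norm,
    show σ.A n y - σ.A n x = σ.r n * (y - x) by simp only [A]; ring, σ.norm_r, mul_comm ε,
    mul_lt_mul_iff_right₀ (σ.rpos n)]

theorem A_mem0 {n : ℕ} {y : ℂ} {L : ℝ} : σ.A n y ∈ ball (σ.p n 0) (L * σ.r n) ↔ ‖y‖ < L := by
  rw [← σ.A_zero n, σ.A_mem, mem_ball_zero_iff]

/-- The ratio for an unbranched pull-back. -/
noncomputable def α (n k : ℕ) (h : ℂ → ℂ) : ℂ → ℂ :=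
  rat (σ.Y n) (σ.p n 0) (σ.p n (k + 1)) (fun v => fp (σ.Y n).T (h v)) (σ.A n)
    (fun y => h (σ.A n y)) 0

theorem hA_deriv {n k : ℕ} {h : ℂ → ℂ} {L : ℝ}
    (hb : Br (σ.Y n).T k h (ball (σ.p n 0) (L * σ.r n))) {y : ℂ} (hy : y ∈ ball (0 : ℂ) L) :
    HasDerivAt (fun y => h (σ.A n y)) (deriv h (σ.A n y) * σ.r n) y :=
  (hb.diff.hasDerivAt (isOpen_ball.mem_nhds (σ.A_mem0.mpr (mem_ball_zero_iff.mp hy)))).comp y
    (σ.A_deriv n y)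

theorem loc_unb {n k : ℕ} {h : ℂ → ℂ} {L : ℝ} (hL : 0 < L)
    (g2 : Br (σ.Y n).T (k + 1) h (ball (σ.p n 0) (L * σ.r n)))
    (g3 : h (σ.p n 0) = σ.p n (k + 1)) {x : ℂ} {ε m C : ℝ} (hm : 0 < m)
    (hsub : ball x ε ⊆ ball 0 L) (g4 : ∀ y ∈ ball x ε,
      (σ.A n y ∈ (σ.Y n).B → σ.A n y = σ.p n 0) ∧ m⁻¹ ≤ ‖σ.u n y‖ ∧ ‖y‖ ≤ C) :
    DifferentiableOn ℂ (fun y => 1 - σ.α n k h y) (ball x ε) ∧
      LI (ball x ε) (fun y => ‖1 - σ.α n k h y‖ - (1 - σ.α n k h y).re) ≤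
        ENNReal.ofReal (m * C ^ 2) *
          LI (ball (σ.A n x) (ε * σ.r n)) ((σ.Y n).Err k fun v => fp (σ.Y n).T (h v)) := by
  have hu := g2.univ isOpen_ball
  obtain ⟨k1, k2⟩ := loc_est (σ.Y n) (σ.pmem n 0) (σ.pmem n (k + 1))
    (g2.iter (j := 1) (by omega)) isOpen_ball
    (fun y _ => (σ.A_deriv n y).differentiableAt.differentiableWithinAt)
    (fun y hy => (σ.hA_deriv g2 hy).differentiableAt.differentiableWithinAt)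
    (fun y hy => σ.A_mem0.mpr (mem_ball_zero_iff.mp hy)) (fun _ _ => rfl) (mem_ball_self hL)
    (σ.A_zero n) (by rw [σ.A_zero, g3]) hsub (σ.A_inj n).injOn
    (W := ball (σ.A n x) (ε * σ.r n)) (fun y hy => σ.A_mem.mpr hy) hm (C := C) (fun y hy => by
      have hyL := mem_ball_zero_iff.mp (hsub hy)
      have hyA := σ.A_mem0 (n := n).mpr hyL
      refine ⟨(g4 y hy).1, (g4 y hy).2.1, g2.ne_zero isOpen_ball (by omega) hyA, ?_, ?_⟩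
      · rw [(σ.A_deriv n y).deriv, A, add_sub_cancel_left, norm_mul, mul_comm]
        gcongr
        exact (g4 y hy).2.2
      · by_cases h0 : y = 0
        · rw [h0, dslope_same, (σ.hA_deriv g2 (mem_ball_self hL)).deriv]
          exact mul_ne_zero (hu.ne _ (h0 ▸ hyA)) (σ.r_ne n)
        · rw [dslope_of_ne _ h0, slope_def_field]
          refine div_ne_zero (sub_ne_zero.mpr fun h1 => h0 (σ.A_inj n ?_)) (by simpa using h0)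
          exact hu.inj hyA (σ.A_mem0.mpr (by simpa using hL)) h1)
  exact ⟨(differentiableOn_const _).sub k1,
    (LI_mono measurableSet_ball fun y _ => neg_le_two' _).trans k2⟩

theorem unb_est {L : ℝ} (hL : 0 < L) {k : ℕ → ℕ} {h : ℕ → ℂ → ℂ}
    (hh : ∀ᶠ n in (σ.𝒰 : Filter ℕ), k n < (σ.Y n).B.card ∧
      Br (σ.Y n).T (k n + 1) (h n) (ball (σ.p n 0) (L * σ.r n)) ∧
      h n (σ.p n 0) = σ.p n (k n + 1)) :
    (∀ x ∈ ball (0 : ℂ) L \ σ.E, ∃ ε > 0, ∃ C, 0 ≤ C ∧ ∀ᶠ n in (σ.𝒰 : Filter ℕ),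
      DifferentiableOn ℂ (fun y => 1 - σ.α n (k n) (h n) y) (ball x ε) ∧
      LI (ball x ε) (fun y => ‖1 - σ.α n (k n) (h n) y‖ - (1 - σ.α n (k n) (h n) y).re) ≤
        ENNReal.ofReal C * LI (ball 0 (Λ + 2 * Λ * L)) (σ.Y n).err) ∧
    ∀ᶠ n in (σ.𝒰 : Filter ℕ), 1 - σ.α n (k n) (h n) 0 = 0 := by
  refine ⟨fun x hx => ?_, ?_⟩
  · obtain ⟨ε, hε, m, hm, M, hxε, h1⟩ := σ.loss_le hx.2 (mem_ball_zero_iff.mp hx.1)
    refine ⟨ε, hε, m * L ^ 2 * M, by positivity, ?_⟩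
    filter_upwards [hh, h1] with n ⟨g1, g2, g3⟩ ⟨g4, g5⟩
    have hsub : ball x ε ⊆ ball 0 L := fun y hy => by
      rw [mem_ball_zero_iff]
      rw [mem_ball, dist_eq_norm] at hy
      linarith [norm_le_norm_add_norm_sub' y x]
    obtain ⟨k1, k2⟩ := σ.loc_unb hL g2 g3 hm hsub (C := L) fun y hy =>
      ⟨(g4 y hy).1, (g4 y hy).2, (mem_ball_zero_iff.mp (hsub hy)).le⟩
    refine ⟨k1, k2.trans ?_⟩
    rw [ENNReal.ofReal_mul (p := m * L ^ 2) (by positivity), ENNReal.ofReal_natCast, mul_assoc]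
    exact mul_le_mul_right (g5 _ g1 (fun v => fp (σ.Y n).T (h n v)) (g2.iter (j := 1) (by omega))
      (by rw [g3, σ.pstep])) _
  · filter_upwards [hh] with n ⟨_, g2, g3⟩
    have hA : σ.A n 0 ∈ ball (σ.p n 0) (L * σ.r n) := σ.A_mem0.mpr (by simpa using hL)
    have b1 : Br (σ.Y n).T (k n) (fun v => fp (σ.Y n).T (h n v))
        (ball (σ.p n 0) (L * σ.r n)) := g2.iter (j := 1) (by omega)
    rw [α, rat_self (σ.Y n) (σ.pmem n 0) (σ.pmem n _) (σ.A_zero n) (by rw [σ.A_zero, g3]), sub_self]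
    · rw [(σ.hA_deriv g2 (mem_ball_self hL)).deriv]
      exact mul_ne_zero ((g2.univ isOpen_ball).ne _ hA) (σ.r_ne n)
    · exact chain_rule isOpen_ball
        (fun y _ => (σ.A_deriv n y).differentiableAt.differentiableWithinAt)
        (fun y hy => (σ.hA_deriv g2 hy).differentiableAt.differentiableWithinAt) (fun _ _ => rfl)
        (mem_ball_self hL) (b1.diff.differentiableAt (isOpen_ball.mem_nhds hA))

theorem unbranched' {L : ℝ} {k : ℕ → ℕ} {h : ℕ → ℂ → ℂ}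
    (hh : ∀ᶠ n in (σ.𝒰 : Filter ℕ), k n < (σ.Y n).B.card ∧
      Br (σ.Y n).T (k n + 1) (h n) (ball (σ.p n 0) (L * σ.r n)) ∧
      h n (σ.p n 0) = σ.p n (k n + 1)) :
    ∀ x ∉ σ.E, ‖x‖ < L → ∃ ε > 0, ∀ δ > 0, ∀ᶠ n in (σ.𝒰 : Filter ℕ), ∀ y ∈ ball x ε,
      ‖1 - σ.α n (k n) (h n) y‖ ≤ δ := by
  intro x hx hxL
  have hL : 0 < L := (norm_nonneg _).trans_lt hxL
  obtain ⟨h1, h2⟩ := σ.unb_est hL hh
  refine align (l := σ.𝒰) (α := fun n y => 1 - σ.α n (k n) (h n) y)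
    (preconn_diff isOpen_ball (convex_ball (0 : ℂ) L).isPreconnected σ.Ecl σ.Enull)
    (fun x hx => ?_) (x₀ := 0) ⟨mem_ball_self hL, σ.E0⟩ h2 x ⟨mem_ball_zero_iff.mpr hxL, hx⟩
  obtain ⟨ε, hε, C, hC, h3⟩ := h1 x hx
  refine ⟨ε, hε, fun δ hδ => ?_⟩
  filter_upwards [h3, σ.small (Λ + 2 * Λ * L) (σ.Λle hL) (δ / (C + 1)) (by positivity)]
    with n g1 g2
  exact ⟨g1.1, scale_small hC hδ g1.2 g2⟩

theorem A_div (n : ℕ) (z : ℂ) : σ.A n ((z - σ.p n 0) / σ.r n) = z := by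
  have := σ.r_ne n
  simp only [A]
  field_simp
  ring

/-- The scale at the `k`-th point of the backward orbit. -/
noncomputable def t (n k : ℕ) : ℂ := σ.r n / Pd (σ.Y n).T (σ.p n k) k

/-- The differential in the affine chart at the `k`-th point. -/
noncomputable def v (n k : ℕ) (y : ℂ) : ℂ := (σ.Y n).U (σ.p n k) (σ.p n k + σ.t n k * y)

theorem t_eq {n k : ℕ} {h : ℂ → ℂ} {R : ℝ} (hR : 0 < R) (hb : Br (σ.Y n).T k h (ball (σ.p n 0) R))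
    (h0 : h (σ.p n 0) = σ.p n k) : σ.t n k = deriv h (σ.p n 0) * σ.r n ∧ σ.t n k ≠ 0 := by
  have := hb.mul_deriv isOpen_ball (mem_ball_self hR)
  rw [h0] at this
  have h1 : σ.t n k = deriv h (σ.p n 0) * σ.r n := by
    rw [t, div_eq_inv_mul, ← eq_inv_of_mul_eq_one_right this]
  exact ⟨h1, h1 ▸ mul_ne_zero (right_ne_zero_of_mul_eq_one this) (σ.r_ne n)⟩

end Setup

end Pool.Agent.MP_28f8a1_an.G42
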