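import Pool.Agent.MP_28f8a1_an.G42.Base

/-! The push-forward operator of a polynomial. -/

set_option autoImplicit false

namespace Pool.Agent.MP_28f8a1_an.G42

open MeasureTheory Metric Set Real Filter Topology Polynomial Pool.Agent.MP_28f8a1_an.H42
open scoped ENNReal

variable {T : ℂ[X]}

/-- Contribution of one preimage. -/
noncomputable def tm (T : ℂ[X]) (φ : ℂ → ℂ) (w : ℂ) : ℂ := φ w / lam T w ^ 2

/-- The push-forward operator. -/
noncomputable def Tr (T : ℂ[X]) (φ : ℂ → ℂ) (y : ℂ) : ℂ := ∑ w ∈ pre T y, tm T φ w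

/-- The loss in the triangle inequality. -/
noncomputable def loss (T : ℂ[X]) (φ : ℂ → ℂ) (y : ℂ) : ℝ :=
  ∑ w ∈ pre T y, ‖tm T φ w‖ - ‖Tr T φ y‖

theorem t1710_pieces (T : ℂ[X]) : ∃ A : ℕ → Set ℂ, (∀ i, MeasurableSet (A i)) ∧
    Pairwise (Function.onFun Disjoint A) ∧ (∀ i, InjOn (fp T) (A i)) ∧
    ∀ w, lam T w ≠ 0 → ∃ i, w ∈ A i := by
  obtain ⟨U, hU⟩ := (((TopologicalSpace.countable_countableBasis ℂ).insert ∅).mono
    (sep_subset _ fun b => InjOn (fp T) b)).exists_eq_range ⟨∅, mem_insert _ _, injOn_empty _⟩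
  have h1 : ∀ i, U i ∈ insert ∅ (TopologicalSpace.countableBasis ℂ) ∧ InjOn (fp T) (U i) :=
    fun i => hU.ge (mem_range_self i)
  refine ⟨disjointed U, MeasurableSet.disjointed fun i => ?_, disjoint_disjointed U,
    fun i => (h1 i).2.mono (disjointed_subset U i), fun w hw => ?_⟩
  · rcases (h1 i).1 with h | h
    · rw [h]
      exact MeasurableSet.empty
    · exact (TopologicalSpace.isOpen_of_mem_countableBasis h).measurableSet
  · obtain ⟨ι, h2⟩ : ∃ ι : ℂ → ℂ, ∀ᶠ v in 𝓝 w, ι (fp T v) = v :=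
      ⟨_, ((fp_strict w).hasStrictFDerivAt_equiv hw).eventually_left_inverse⟩
    obtain ⟨b, hb, h3, h4⟩ := (TopologicalSpace.isBasis_countableBasis ℂ).mem_nhds_iff.1 h2
    obtain ⟨i, hi⟩ := hU.le ⟨mem_insert_of_mem _ hb,
      fun u hu v hv h => (h4 hu).symm.trans (h ▸ h4 hv)⟩
    rw [← mem_iUnion, iUnion_disjointed]
    exact mem_iUnion.2 ⟨i, hi ▸ h3⟩

theorem t1710_in (hT : 0 < T.natDegree) {E : Type} [AddCommMonoid E] {A : Set ℂ}
    (hA : InjOn (fp T) A) (G : ℂ → E) {w : ℂ} (hw : w ∈ A) :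
    ∑ v ∈ pre T (fp T w), A.indicator G v = G w := by
  rw [Finset.sum_eq_single_of_mem w ((mem_pre hT).2 rfl), indicator_of_mem hw]
  exact fun v hv hne => indicator_of_notMem (fun h => hne (hA h hw ((mem_pre hT).1 hv))) _

theorem t1710_out (hT : 0 < T.natDegree) {E : Type} [AddCommMonoid E] {A : Set ℂ}
    (G : ℂ → E) {y : ℂ} (hy : y ∉ fp T '' A) : ∑ v ∈ pre T y, A.indicator G v = 0 :=
  Finset.sum_eq_zero fun v hv => indicator_of_notMem (fun h => hy ⟨v, h, (mem_pre hT).1 hv⟩) _

theorem t1710_meas (hT : 0 < T.natDegree) {E : Type} [AddCommMonoid E] [MeasurableSpace E]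
    {A : Set ℂ} (hm : MeasurableSet A) (hA : InjOn (fp T) A) {G : ℂ → E} (hG : Measurable G) :
    Measurable fun y => ∑ v ∈ pre T y, A.indicator G v := by
  have he := fp_diff.continuous.continuousOn.measurableEmbedding hm hA
  have e : (fun y => ∑ v ∈ pre T y, A.indicator G v) =
      Function.extend (A.domRestrict (fp T)) (fun w : A => G w) fun _ => 0 := by
    funext y
    by_cases hy : y ∈ fp T '' A
    · obtain ⟨w, hw, rfl⟩ := hy
      rw [t1710_in hT hA G hw]
      exact (he.injective.extend_apply (fun w : A => G w) _ ⟨w, hw⟩).symm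
    · rw [t1710_out hT G hy, Function.extend_apply']
      exact fun ⟨w, hw⟩ => hy ⟨w, w.2, hw⟩
  rw [e]
  exact he.measurable_extend (hG.comp measurable_subtype_coe) measurable_const

theorem t1710_sum {E : Type} [AddCommMonoid E] [TopologicalSpace E] [ContinuousAdd E]
    {A : ℕ → Set ℂ} (hd : Pairwise (Function.onFun Disjoint A))
    (hc : ∀ w, lam T w ≠ 0 → ∃ i, w ∈ A i) {G : ℂ → E} (h0 : ∀ w, lam T w = 0 → G w = 0) (y : ℂ) :
    HasSum (fun i => ∑ v ∈ pre T y, (A i).indicator G v) (∑ v ∈ pre T y, G v) := by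
  refine hasSum_sum fun v _ => ?_
  by_cases hv : lam T v = 0
  · have e : (fun i => (A i).indicator G v) = fun _ => 0 :=
      funext fun i => indicator_apply_eq_zero.2 fun _ => h0 v hv
    rw [e, h0 v hv]
    exact hasSum_zero
  · obtain ⟨i, hi⟩ := hc v hv
    rw [← indicator_of_mem hi G]
    exact hasSum_single i fun j hj =>
      indicator_of_notMem (fun h => disjoint_left.1 (hd hj) h hi) _

/-- Sums over the preimages are measurable.
Hint: cover the complement of the finite set of critical points by countably many discs on which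
`fp T` is injective (Lindelof), make them disjoint (`disjointed`), and write the sum as a limit of
finite sums of `Function.extend` along the measurable embeddings `fp T` restricted to the pieces. -/
theorem measurable_pre (hT : 0 < T.natDegree) {G : ℂ → ℂ} (hG : Measurable G)
    (h0 : ∀ w, lam T w = 0 → G w = 0) : Measurable fun y => ∑ w ∈ pre T y, G w := by
  obtain ⟨A, h1, h2, h3, h4⟩ := t1710_pieces T
  exact measurable_of_tendsto_metrizable
    (fun n => Finset.measurable_fun_sum (Finset.range n) fun i _ => t1710_meas hT (h1 i) (h3 i) hG)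
    (tendsto_pi_nhds.2 fun y => (t1710_sum h2 h4 h0 y).tendsto_sum_nat)

/-- The push-forward does not increase the mass.
Hint: the same pieces `A i`; `LI_image` for `fp T` on `A i ∩ fp T ⁻¹' X`. -/
theorem push (hT : 0 < T.natDegree) {φ : ℂ → ℂ} (hφ : Measurable φ) {X : Set ℂ}
    (hX : MeasurableSet X) :
    LI X (fun y => ∑ w ∈ pre T y, ‖tm T φ w‖) ≤ LI (fp T ⁻¹' X) (fun y => ‖φ y‖) := by
  obtain ⟨A, h1, h2, h3, h4⟩ := t1710_pieces T
  have hm : Measurable fun w => ‖tm T φ w‖ :=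
    (hφ.div (lam_diff.continuous.measurable.pow_const 2)).norm
  have hp := fp_diff.continuous.measurable (f := fp T) hX
  have e : ∀ y, ENNReal.ofReal (∑ w ∈ pre T y, ‖tm T φ w‖) =
      ∑' i, ENNReal.ofReal (∑ v ∈ pre T y, (A i).indicator (fun w => ‖tm T φ w‖) v) := fun y => by
    have h := t1710_sum (G := fun w => ‖tm T φ w‖) h2 h4 (fun w hw => by simp [tm, hw]) y
    rw [← h.tsum_eq, ENNReal.ofReal_tsum_of_nonneg (fun i => Finset.sum_nonneg fun v _ =>
      indicator_nonneg (fun _ _ => norm_nonneg _) v) h.summable]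
  have b : ∀ i, LI X (fun y => ∑ v ∈ pre T y, (A i).indicator (fun w => ‖tm T φ w‖) v) ≤
      LI (A i ∩ fp T ⁻¹' X) fun y => ‖φ y‖ := fun i => by
    have e1 : LI X (fun y => ∑ v ∈ pre T y, (A i).indicator (fun w => ‖tm T φ w‖) v) =
        LI (fp T '' (A i ∩ fp T ⁻¹' X))
          fun y => ∑ v ∈ pre T y, (A i).indicator (fun w => ‖tm T φ w‖) v := by
      have hi := (h1 i).image_of_continuousOn_injOn fp_diff.continuous.continuousOn (h3 i)
      rw [image_inter_preimage, LI, LI, ← Measure.restrict_restrict hi, ← lintegral_indicator hi]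
      refine lintegral_congr fun y => ?_
      by_cases hy : y ∈ fp T '' A i
      · rw [indicator_of_mem hy]
      · rw [indicator_of_notMem hy, t1710_out hT _ hy, ENNReal.ofReal_zero]
    rw [e1, LI_image ((h1 i).inter hp) (fun z _ => fp_deriv z) ((h3 i).mono inter_subset_left)]
    refine LI_mono ((h1 i).inter hp) fun z hz => ?_
    rw [t1710_in hT (h3 i) _ hz.1, tm, norm_div, norm_pow]
    by_cases h0 : ‖lam T z‖ ^ 2 = 0
    · rw [h0, zero_mul]
      exact norm_nonneg _
    · rw [mul_div_cancel₀ _ h0]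
  unfold LI at b ⊢
  simp only [e]
  rw [lintegral_tsum fun i => (t1710_meas hT (h1 i) (h3 i) hm).ennreal_ofReal.aemeasurable]
  refine (ENNReal.tsum_le_tsum b).trans ?_
  rw [← lintegral_iUnion (fun i => (h1 i).inter hp) fun i j hij =>
    (h2 hij).mono inter_subset_left inter_subset_left]
  exact lintegral_mono_set (iUnion_subset fun i => inter_subset_right)

theorem loss_nonneg (φ : ℂ → ℂ) (y : ℂ) : 0 ≤ loss T φ y := sub_nonneg.mpr (norm_sum_le _ _)

theorem measurable_tm {φ : ℂ → ℂ} (hφ : Measurable φ) : Measurable (tm T φ) :=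
  hφ.div (lam_diff.continuous.measurable.pow_const 2)

theorem measurable_Tr (hT : 0 < T.natDegree) {φ : ℂ → ℂ} (hφ : Measurable φ) :
    Measurable (Tr T φ) :=
  measurable_pre hT (measurable_tm hφ) fun w hw => by simp [tm, hw]

theorem measurable_sum_tm (hT : 0 < T.natDegree) {φ : ℂ → ℂ} (hφ : Measurable φ) :
    Measurable fun y => ∑ w ∈ pre T y, ‖tm T φ w‖ := by
  have := Complex.measurable_re.comp (measurable_pre hT (G := fun w => (‖tm T φ w‖ : ℝ))
    (Complex.measurable_ofReal.comp (measurable_tm hφ).norm) fun w hw => by simp [tm, hw])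
  simpa [Function.comp_def] using this

theorem measurable_loss (hT : 0 < T.natDegree) {φ : ℂ → ℂ} (hφ : Measurable φ) :
    Measurable (loss T φ) := (measurable_sum_tm hT hφ).sub (measurable_Tr hT hφ).norm

theorem loss_one (hT : 0 < T.natDegree) (φ : ℂ → ℂ) (w : ℂ) : ∃ S : ℝ,
    ‖Tr T φ (fp T w) - tm T φ w‖ ≤ S ∧
      ‖tm T φ w‖ + S = ‖Tr T φ (fp T w)‖ + loss T φ (fp T w) := by
  classical
  have hi : w ∈ pre T (fp T w) := (mem_pre hT).2 rfl
  refine ⟨∑ v ∈ (pre T (fp T w)).erase w, ‖tm T φ v‖, ?_, ?_⟩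
  · rw [Tr, ← Finset.add_sum_erase _ _ hi, add_sub_cancel_left]
    exact norm_sum_le _ _
  · rw [loss, ← Finset.add_sum_erase _ _ hi]
    ring

theorem loss_two (hT : 0 < T.natDegree) (φ : ℂ → ℂ) {w w' : ℂ} (hne : w ≠ w')
    (hf : fp T w' = fp T w) :
    ‖tm T φ w‖ + ‖tm T φ w'‖ ≤ ‖Tr T φ (fp T w)‖ + loss T φ (fp T w) := by
  classical
  have := Finset.sum_le_sum_of_subset_of_nonneg (f := fun v => ‖tm T φ v‖)
    (s := {w, w'}) (t := pre T (fp T w)) (fun v hv => by
      rcases Finset.mem_insert.1 hv with rfl | h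
      · exact (mem_pre hT).2 rfl
      · exact (mem_pre hT).2 (Finset.mem_singleton.1 h ▸ hf)) fun _ _ _ => norm_nonneg _
  rw [Finset.sum_pair hne] at this
  unfold loss
  linarith

/-- The transfer inequality. -/
theorem transfer (hT : 0 < T.natDegree) {φ : ℂ → ℂ} (hφ : Measurable φ) {X : Set ℂ}
    (hX : MeasurableSet X) :
    LI X (fun y => ‖φ y‖) + LI X (loss T φ) ≤
      LI (fp T ⁻¹' X) (fun y => ‖φ y‖) + LI X (fun y => ‖φ y - Tr T φ y‖) := by
  rw [← LI_add hX hφ.norm (fun _ _ => norm_nonneg _) (fun _ _ => loss_nonneg _ _)]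
  refine le_trans (LI_mono hX fun y _ => ?_)
    ((LI_add_le _ (measurable_sum_tm hT hφ) _).trans (add_le_add (push hT hφ hX) le_rfl))
  have := norm_le_norm_add_norm_sub' (φ y) (Tr T φ y)
  unfold loss
  linarith

end Pool.Agent.MP_28f8a1_an.G42
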